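import Mathlib.RingTheory.Valuation.Basic
import Mathlib.Data.Int.ConditionallyCompleteOrder
import Mathlib.Topology.Compactification.OnePoint.Basic

set_option autoImplicit false

namespace Pool.Agent.MP_fb6b45_ag

/-- A place of the function field `F` over `K`, that is, a point of its smooth projective model:
a normalized discrete valuation of `F` that is trivial on `K`. -/
@[ext] structure Place (K F : Type) [Field K] [Field F] [Algebra K F] where
  /-- the valuation, written multiplicatively: `v g = exp (- ord g)` -/
  v : Valuation F (WithZero (Multiplicative ℤ))
  surj : Function.Surjective v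
  triv : ∀ c : K, v (algebraMap K F c) ≤ 1

/-- The pull-back by `f` of the standard local parameter of the projective line at `b`. -/
noncomputable def locParam {K F : Type} [Field K] [Field F] [Algebra K F] (f : F)
    (b : OnePoint K) : F :=
  OnePoint.rec f⁻¹ (fun c => f - algebraMap K F c) b

/-- The place `P` lies over the point `b` of the projective line under `f`, with ramification
index `e`. -/
def LiesOver {K F : Type} [Field K] [Field F] [Algebra K F] (f : F) (P : Place K F)
    (b : OnePoint K) (e : ℕ) : Prop :=
  0 < e ∧ P.v (locParam f b) = WithZero.exp (-(e : ℤ))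

/-- Ramification type `(3,3,3,3,3)`: five branch points, each with a fibre made of one point of
index three and two unramified points, and no ramification over any other point. -/
def HasType33333 (K : Type) {F : Type} [Field K] [Field F] [Algebra K F] (f : F) : Prop :=
  ∃ B : Finset (OnePoint K), B.card = 5 ∧
    (∀ b ∈ B, ∃ P Q R : Place K F, Q ≠ R ∧ LiesOver f P b 3 ∧ LiesOver f Q b 1 ∧
      LiesOver f R b 1 ∧ ∀ (S : Place K F) (e : ℕ), LiesOver f S b e → S = P ∨ S = Q ∨ S = R) ∧
    ∀ b, b ∉ B → ∀ (S : Place K F) (e : ℕ), LiesOver f S b e → e = 1

end Pool.Agent.MP_fb6b45_ag
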