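import Mathlib.Topology.Sheaves.Presheaf
import Mathlib.Data.Int.Star
import Mathlib.Algebra.Order.Ring.Star
import Mathlib.AlgebraicGeometry.EllipticCurve.Affine.Point
import Mathlib.AlgebraicGeometry.EllipticCurve.IsomOfJ
import Mathlib.RingTheory.DedekindDomain.AdicValuation
import Mathlib.RingTheory.SimpleRing.Principal
import Mathlib.RingTheory.Henselian
import Mathlib.RingTheory.RegularLocalRing.Defs
import Mathlib.Tactic.Polynomial.Basic
import Pool.Agent.MP_fb6b45_ag.Defs

-- ======== part 0: formerly Pool.Agent.MP_fb6b45_ag.Local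
section MrgPart0

set_option autoImplicit false

namespace Pool.Agent.MP_fb6b45_ag

open WithZero

section general

variable {K F : Type} [Field K] [Field F] [Algebra K F]

theorem Place.v_const (P : Place K F) {c : K} (hc : c ≠ 0) : P.v (algebraMap K F c) = 1 := by
  refine le_antisymm (P.triv c) ?_
  have h1 := P.triv c⁻¹
  have h2 : P.v (algebraMap K F c) * P.v (algebraMap K F c⁻¹) = 1 := by
    rw [← map_mul, ← map_mul, mul_inv_cancel₀ hc, map_one, map_one]
  calc (1 : WithZero (Multiplicative ℤ))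
      = P.v (algebraMap K F c) * P.v (algebraMap K F c⁻¹) := h2.symm
    _ ≤ P.v (algebraMap K F c) * 1 := by gcongr
    _ = _ := mul_one _

theorem Place.v_eq_one_of_sub (P : Place K F) {g : F} {c : K} (hc : c ≠ 0)
    (h : P.v (g - algebraMap K F c) < 1) : P.v g = 1 := by
  have := P.v.map_add_eq_of_lt_left (x := algebraMap K F c) (y := g - algebraMap K F c)
    (by rwa [P.v_const hc])
  rwa [add_sub_cancel, P.v_const hc] at this

/-- Transport of a place along an isomorphism of function fields. -/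
noncomputable def Place.comap {F' : Type} [Field F'] [Algebra K F'] (e : F' ≃ₐ[K] F)
    (P : Place K F) : Place K F' where
  v := P.v.comap (e : F' →+* F)
  surj := fun γ => by
    obtain ⟨g, hg⟩ := P.surj γ
    exact ⟨e.symm g, by simpa using hg⟩
  triv := fun c => by simpa using P.triv c

@[simp] theorem Place.comap_v {F' : Type} [Field F'] [Algebra K F'] (e : F' ≃ₐ[K] F)
    (P : Place K F) (g : F') : (P.comap e).v g = P.v (e g) := rfl

/-- Transport of places as a bijection. -/
noncomputable def Place.equiv {F' : Type} [Field F'] [Algebra K F'] (e : F' ≃ₐ[K] F) :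
    Place K F ≃ Place K F' where
  toFun P := P.comap e
  invFun P := P.comap e.symm
  left_inv P := by ext g; simp
  right_inv P := by ext g; simp

end general

section loc

variable {K R F : Type} [Field K] [CommRing R] [IsDomain R] [IsNoetherianRing R] [Algebra K R]
  [Field F] [Algebra R F] [IsFractionRing R F] [Algebra K F] [IsScalarTower K R F]

/-- The place is centered at the rational point given by `ev`. -/
def Centered (ev : R →ₐ[K] K) (P : Place K F) : Prop :=
  (∀ r : R, P.v (algebraMap R F r) ≤ 1) ∧ ∀ r : R, ev r = 0 → P.v (algebraMap R F r) < 1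

omit [IsDomain R] [IsNoetherianRing R] [IsFractionRing R F] in
theorem Centered.sub_lt {ev : R →ₐ[K] K} {P : Place K F} (h : Centered ev P) (r : R) :
    P.v (algebraMap R F r - algebraMap K F (ev r)) < 1 := by
  have := h.2 (r - algebraMap K R (ev r)) (by simp)
  rwa [map_sub, ← IsScalarTower.algebraMap_apply] at this

omit [IsDomain R] [IsNoetherianRing R] [IsFractionRing R F] in
theorem Centered.eq_one {ev : R →ₐ[K] K} {P : Place K F} (h : Centered ev P) {r : R}
    (hr : ev r ≠ 0) : P.v (algebraMap R F r) = 1 :=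
  P.v_eq_one_of_sub hr (h.sub_lt r)

theorem local_structure (ev : R →ₐ[K] K) (t : R) (ht0 : t ≠ 0) (ht : ev t = 0)
    (hgen : ∀ r, ev r = 0 → ∃ s h, ev s ≠ 0 ∧ r * s = t * h) :
    (∃ P : Place K F, Centered ev P) ∧
      ∀ r : R, r ≠ 0 → ∃ (n : ℕ) (s h : R), ev s ≠ 0 ∧ ev h ≠ 0 ∧ r * s = t ^ n * h := by
  let m : Ideal R := RingHom.ker (ev : R →+* K)
  have hmem : ∀ r, r ∈ m ↔ ev r = 0 := fun r => RingHom.mem_ker
  have hprime : m.IsPrime := RingHom.ker_isPrime _
  have hle : m.primeCompl ≤ nonZeroDivisors R := Ideal.primeCompl_le_nonZeroDivisors m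
  let A := Localization.subalgebra.ofField F m.primeCompl hle
  have hloc : IsLocalization.AtPrime A m := Localization.subalgebra.isLocalization_ofField _ _ _
  have hlr : IsLocalRing A := IsLocalization.AtPrime.isLocalRing A m
  have hno : IsNoetherianRing A := IsLocalization.isNoetherianRing m.primeCompl A inferInstance
  have hinj : Function.Injective (algebraMap R A) := IsLocalization.injective A hle
  have hunit : ∀ s : R, ev s ≠ 0 → IsUnit (algebraMap R A s) := fun s hs =>
    IsLocalization.map_units A (⟨s, fun h => hs ((hmem s).1 h)⟩ : m.primeCompl)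
  have hmax : ∀ r : R, algebraMap R A r ∈ IsLocalRing.maximalIdeal A ↔ ev r = 0 := fun r =>
    (IsLocalization.AtPrime.to_map_mem_maximal_iff A m r).trans (hmem r)
  have hdvd : ∀ r : R, ev r = 0 → algebraMap R A t ∣ algebraMap R A r := by
    intro r hr
    obtain ⟨s, h, hs, hrs⟩ := hgen r hr
    rw [← (hunit s hs).dvd_mul_right, ← map_mul, hrs, map_mul]
    exact Dvd.intro _ rfl
  have hspan : IsLocalRing.maximalIdeal A = Ideal.span {algebraMap R A t} := by
    apply le_antisymm
    · intro g hg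
      obtain ⟨⟨r, s⟩, rfl⟩ := IsLocalization.mk'_surjective m.primeCompl g
      have hr : ev r = 0 := (hmem r).1 ((IsLocalization.AtPrime.mk'_mem_maximal_iff A m r s).1 hg)
      dsimp only
      rw [Ideal.mem_span_singleton, IsLocalization.mk'_eq_mul_mk'_one]
      exact (hdvd r hr).mul_right _
    · rw [Ideal.span_singleton_le_iff_mem]
      exact (hmax t).2 ht
  have htA : algebraMap R A t ≠ 0 := fun h => ht0 (hinj (by rw [h, map_zero]))
  have hne : IsLocalRing.maximalIdeal A ≠ ⊥ := by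
    rw [hspan, Ne, Ideal.span_singleton_eq_bot]
    exact htA
  have hpr : (IsLocalRing.maximalIdeal A).IsPrincipal := ⟨⟨_, hspan⟩⟩
  have hded : IsDedekindDomain A :=
    ((tfae_of_isNoetherianRing_of_isLocalRing_of_isDomain A).out 4 2).1 hpr
  refine ⟨?_, ?_⟩
  · let p : IsDedekindDomain.HeightOneSpectrum A := ⟨IsLocalRing.maximalIdeal A, inferInstance, hne⟩
    have hv : ∀ r : R, algebraMap R F r = algebraMap A F (algebraMap R A r) := fun r =>
      IsScalarTower.algebraMap_apply R A F r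
    have h1 : ∀ r : R, p.valuation F (algebraMap R F r) ≤ 1 := fun r => by
      rw [hv]; exact p.valuation_le_one _
    refine ⟨⟨p.valuation F, p.valuation_surjective F, fun c => ?_⟩, h1, fun r hr => ?_⟩
    · rw [IsScalarTower.algebraMap_apply K R F]
      exact h1 _
    · change p.valuation F (algebraMap R F r) < 1
      rw [hv]
      exact (p.valuation_lt_one_iff_mem _).2 ((hmax r).2 hr)
  · intro r hr
    have hrA : algebraMap R A r ≠ 0 := fun h => hr (hinj (by rw [h, map_zero]))
    have hnu : ¬ IsUnit (algebraMap R A t) := (hmax t).2 ht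
    obtain ⟨n, g, hg, hrg⟩ := WfDvdMonoid.max_power_factor' hrA hnu
    obtain ⟨⟨h, s⟩, rfl⟩ := IsLocalization.mk'_surjective m.primeCompl g
    refine ⟨n, s, h, fun hs => s.2 ((hmem _).2 hs), fun hh => hg ?_, hinj ?_⟩
    · dsimp only
      rw [IsLocalization.mk'_eq_mul_mk'_one]
      exact (hdvd h hh).mul_right _
    · rw [map_mul, map_mul, map_pow, hrg, mul_assoc, IsLocalization.mk'_spec]

omit [IsNoetherianRing R] [Algebra K F] [IsScalarTower K R F] in
theorem Centered.factor {ev : R →ₐ[K] K} {t : R} (ht0 : t ≠ 0)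
    (hfac : ∀ r : R, r ≠ 0 → ∃ (n : ℕ) (s h : R), ev s ≠ 0 ∧ ev h ≠ 0 ∧ r * s = t ^ n * h)
    {g : F} (hg : g ≠ 0) : ∃ (k : ℤ) (s h : R), ev s ≠ 0 ∧ ev h ≠ 0 ∧
      g = algebraMap R F t ^ k * (algebraMap R F h / algebraMap R F s) := by
  obtain ⟨a, b, hb, rfl⟩ := IsFractionRing.div_surjective (A := R) g
  have hb0 : b ≠ 0 := nonZeroDivisors.ne_zero hb
  have ha0 : a ≠ 0 := by
    rintro rfl
    simp at hg
  obtain ⟨n, s, h, hs, hh, e1⟩ := hfac a ha0
  obtain ⟨n', s', h', hs', hh', e2⟩ := hfac b hb0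
  have hne : ∀ r : R, r ≠ 0 → algebraMap R F r ≠ 0 := fun r hr h =>
    hr (IsFractionRing.injective R F (by rw [h, map_zero]))
  have hev : ∀ r : R, ev r ≠ 0 → algebraMap R F r ≠ 0 := fun r hr =>
    hne r (by rintro rfl; exact hr (map_zero _))
  refine ⟨n - n', s * h', h * s', by simp [hs, hh'], by simp [hh, hs'], ?_⟩
  have e1' := congrArg (algebraMap R F) e1
  have e2' := congrArg (algebraMap R F) e2
  simp only [map_mul, map_pow] at e1' e2' ⊢
  have := hne t ht0
  have := hev s hs
  have := hev s' hs'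
  have := hev h' hh'
  have := hne b hb0
  rw [zpow_sub₀ (hne t ht0), zpow_natCast, zpow_natCast]
  field_simp
  linear_combination (algebraMap R F t ^ n' * algebraMap R F h') * e1' -
    (algebraMap R F t ^ n * algebraMap R F h) * e2'

omit [IsNoetherianRing R] in
theorem Centered.v_t {ev : R →ₐ[K] K} {t : R} (ht0 : t ≠ 0) (ht : ev t = 0)
    (hfac : ∀ r : R, r ≠ 0 → ∃ (n : ℕ) (s h : R), ev s ≠ 0 ∧ ev h ≠ 0 ∧ r * s = t ^ n * h)
    {P : Place K F} (hP : Centered ev P) : P.v (algebraMap R F t) = exp (-1) := by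
  obtain ⟨g, hg⟩ := P.surj (exp (-1))
  have hg0 : g ≠ 0 := by
    rintro rfl
    rw [map_zero] at hg
    exact exp_ne_zero hg.symm
  obtain ⟨k, s, h, hs, hh, rfl⟩ := Centered.factor (F := F) ht0 hfac hg0
  rw [map_mul, map_div₀, hP.eq_one hs, hP.eq_one hh, map_zpow₀, div_one, mul_one] at hg
  have hlt := hP.2 t ht
  have hne : P.v (algebraMap R F t) ≠ 0 := by
    rw [Ne, map_eq_zero]
    exact fun h => ht0 (IsFractionRing.injective R F (by rw [h, map_zero]))
  obtain ⟨m, hm⟩ : ∃ m : ℤ, P.v (algebraMap R F t) = exp m := ⟨_, (exp_log hne).symm⟩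
  rw [hm] at hg hlt ⊢
  rw [← exp_zsmul, exp_inj, smul_eq_mul] at hg
  rw [← exp_zero, exp_lt_exp] at hlt
  have : m = -1 := by
    have h1 : m ∣ 1 := ⟨-k, by linarith⟩
    rcases Int.isUnit_iff.1 (isUnit_of_dvd_one h1) with h | h
    · omega
    · exact h
  rw [this]

omit [IsNoetherianRing R] in
theorem Centered.unique {ev : R →ₐ[K] K} {t : R} (ht0 : t ≠ 0) (ht : ev t = 0)
    (hfac : ∀ r : R, r ≠ 0 → ∃ (n : ℕ) (s h : R), ev s ≠ 0 ∧ ev h ≠ 0 ∧ r * s = t ^ n * h)
    {P Q : Place K F} (hP : Centered ev P) (hQ : Centered ev Q) : P = Q := by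
  ext g
  by_cases hg : g = 0
  · rw [hg, map_zero, map_zero]
  obtain ⟨k, s, h, hs, hh, rfl⟩ := Centered.factor (F := F) ht0 hfac hg
  rw [map_mul, map_div₀, hP.eq_one hs, hP.eq_one hh, map_zpow₀, map_mul, map_div₀, hQ.eq_one hs,
    hQ.eq_one hh, map_zpow₀, hP.v_t ht0 ht hfac, hQ.v_t ht0 ht hfac]

omit [IsNoetherianRing R] in
theorem Centered.residue {ev : R →ₐ[K] K} {t : R} (ht0 : t ≠ 0) (ht : ev t = 0)
    (hfac : ∀ r : R, r ≠ 0 → ∃ (n : ℕ) (s h : R), ev s ≠ 0 ∧ ev h ≠ 0 ∧ r * s = t ^ n * h)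
    {P : Place K F} (hP : Centered ev P) {g : F} (hg : P.v g ≤ 1) :
    ∃ c : K, P.v (g - algebraMap K F c) < 1 := by
  rcases hg.lt_or_eq with hlt | heq
  · exact ⟨0, by simpa using hlt⟩
  have hg0 : g ≠ 0 := by
    rintro rfl
    simp at heq
  obtain ⟨k, s, h, hs, hh, rfl⟩ := Centered.factor (F := F) ht0 hfac hg0
  rw [map_mul, map_div₀, hP.eq_one hs, hP.eq_one hh, map_zpow₀, div_one, mul_one,
    hP.v_t ht0 ht hfac, ← exp_zsmul, ← exp_zero, exp_inj, smul_eq_mul] at heq
  have hk : k = 0 := by omega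
  subst hk
  refine ⟨ev h / ev s, ?_⟩
  have hs0 : algebraMap R F s ≠ 0 := fun h0 => by
    have := hP.eq_one hs
    rw [h0, map_zero] at this
    exact zero_ne_one this
  have e : algebraMap R F t ^ (0 : ℤ) * (algebraMap R F h / algebraMap R F s) -
      algebraMap K F (ev h / ev s) =
      algebraMap R F (h - algebraMap K R (ev h / ev s) * s) / algebraMap R F s := by
    rw [zpow_zero, one_mul, map_sub, map_mul, ← IsScalarTower.algebraMap_apply]
    field_simp
  rw [e, map_div₀, hP.eq_one hs, div_one]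
  refine hP.2 _ ?_
  simp [div_mul_cancel₀ _ hs]

end loc

end Pool.Agent.MP_fb6b45_ag

end MrgPart0

-- ======== part 1: formerly Pool.Agent.MP_fb6b45_ag.Hom
section MrgPart1

set_option autoImplicit false

namespace Pool.Agent.MP_fb6b45_ag

open Polynomial WeierstrassCurve WeierstrassCurve.Affine

variable {K : Type} [Field K] (W : WeierstrassCurve.Affine K)

/-- The coordinate `x` in the coordinate ring. -/
noncomputable def xR : W.CoordinateRing := AdjoinRoot.of W.polynomial X

/-- The coordinate `y` in the coordinate ring. -/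
noncomputable def yR : W.CoordinateRing := AdjoinRoot.root W.polynomial

/-- The coordinate `x` in the function field. -/
noncomputable def xF : W.FunctionField := algebraMap W.CoordinateRing W.FunctionField (xR W)

/-- The coordinate `y` in the function field. -/
noncomputable def yF : W.FunctionField := algebraMap W.CoordinateRing W.FunctionField (yR W)

/-- The Weierstrass equation with values in a `K`-algebra. -/
def Eqn {L : Type} [CommRing L] [Algebra K L] (x y : L) : Prop :=
  y ^ 2 + algebraMap K L W.a₁ * x * y + algebraMap K L W.a₃ * y =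
    x ^ 3 + algebraMap K L W.a₂ * x ^ 2 + algebraMap K L W.a₄ * x + algebraMap K L W.a₆

theorem aeval_xR (p : K[X]) : aeval (xR W) p = AdjoinRoot.of W.polynomial p := by
  have := aeval_algHom_apply (AdjoinRoot.ofAlgHom K W.polynomial) X p
  rw [aeval_X_left_apply] at this
  exact this

theorem exists_pq (r : W.CoordinateRing) :
    ∃ p q : K[X], r = aeval (xR W) p + aeval (xR W) q * yR W := by
  obtain ⟨p, q, h⟩ := CoordinateRing.exists_smul_basis_eq r
  refine ⟨p, q, ?_⟩
  rw [← h, CoordinateRing.smul, CoordinateRing.smul, mul_one, aeval_xR, aeval_xR]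
  rfl

theorem pq_eq_zero {p q : K[X]} (h : aeval (xR W) p + aeval (xR W) q * yR W = 0) :
    p = 0 ∧ q = 0 := by
  apply CoordinateRing.smul_basis_eq_zero (W' := W)
  rw [CoordinateRing.smul, CoordinateRing.smul, mul_one]
  rw [aeval_xR, aeval_xR] at h
  exact h

variable {W}

theorem eval₂_poly {L : Type} [CommRing L] [Algebra K L] (x y : L) :
    W.polynomial.eval₂ ((aeval x : K[X] →ₐ[K] L) : K[X] →+* L) y =
      y ^ 2 + algebraMap K L W.a₁ * x * y + algebraMap K L W.a₃ * y -
        (x ^ 3 + algebraMap K L W.a₂ * x ^ 2 + algebraMap K L W.a₄ * x + algebraMap K L W.a₆) := by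
  simp only [WeierstrassCurve.Affine.polynomial, eval₂_sub, eval₂_add, eval₂_mul, eval₂_pow,
    eval₂_X, eval₂_C, RingHom.coe_coe, map_add, map_mul, map_pow, aeval_C, aeval_X]
  ring

variable (W) in
theorem eqn_R : Eqn W (xR W) (yR W) := by
  have h := AdjoinRoot.eval₂_root W.polynomial
  have h2 : (AdjoinRoot.of W.polynomial) =
      ((aeval (xR W) : K[X] →ₐ[K] W.CoordinateRing) : K[X] →+* W.CoordinateRing) := by
    ext1
    · ext c
      simp only [RingHom.comp_apply, RingHom.coe_coe, aeval_xR]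
    · simp only [RingHom.coe_coe, aeval_xR]
  rw [h2, eval₂_poly, sub_eq_zero] at h
  exact h

theorem Eqn.map {L L' : Type} [CommRing L] [Algebra K L] [CommRing L'] [Algebra K L'] {x y : L}
    (h : Eqn W x y) (φ : L →ₐ[K] L') : Eqn W (φ x) (φ y) := by
  have := congrArg φ h
  unfold Eqn
  simpa only [map_add, map_mul, map_pow, AlgHom.commutes] using this

variable (W) in
theorem eqn_F : Eqn W (xF W) (yF W) :=
  (eqn_R W).map (IsScalarTower.toAlgHom K W.CoordinateRing W.FunctionField)

/-- Evaluation of the coordinate ring at a point with values in a `K`-algebra. -/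
noncomputable def evR {L : Type} [CommRing L] [Algebra K L] {x y : L} (h : Eqn W x y) :
    W.CoordinateRing →ₐ[K] L :=
  AdjoinRoot.liftAlgHom W.polynomial (aeval x) y (by rw [eval₂_poly, sub_eq_zero]; exact h)

@[simp] theorem evR_x {L : Type} [CommRing L] [Algebra K L] {x y : L} (h : Eqn W x y) :
    evR h (xR W) = x := by
  simp [evR, xR]

@[simp] theorem evR_y {L : Type} [CommRing L] [Algebra K L] {x y : L} (h : Eqn W x y) :
    evR h (yR W) = y := by
  simp [evR, yR]

theorem evR_pq {L : Type} [CommRing L] [Algebra K L] {x y : L} (h : Eqn W x y) (p q : K[X]) :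
    evR h (aeval (xR W) p + aeval (xR W) q * yR W) = aeval x p + aeval x q * y := by
  rw [map_add, map_mul, ← aeval_algHom_apply, ← aeval_algHom_apply, evR_x, evR_y]

/-- The norm form. -/
noncomputable def normPoly (W : WeierstrassCurve.Affine K) (p q : K[X]) : K[X] :=
  p ^ 2 - p * q * (C W.a₁ * X + C W.a₃) - q ^ 2 * (X ^ 3 + C W.a₂ * X ^ 2 + C W.a₄ * X + C W.a₆)

theorem norm_eq {L : Type} [CommRing L] [Algebra K L] {x y : L} (h : Eqn W x y) (p q : K[X]) :
    (aeval x p + aeval x q * y) *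
      (aeval x p + aeval x q * (-y - algebraMap K L W.a₁ * x - algebraMap K L W.a₃)) =
      aeval x (normPoly W p q) := by
  unfold Eqn at h
  simp only [normPoly, map_sub, map_add, map_mul, map_pow, aeval_C, aeval_X]
  linear_combination (-(aeval x q) ^ 2) * h

theorem normPoly_ne_zero {p q : K[X]} (h : aeval (xR W) p + aeval (xR W) q * yR W ≠ 0) :
    normPoly W p q ≠ 0 := by
  intro h0
  have h1 := norm_eq (eqn_R W) p q
  rw [h0, map_zero] at h1
  rcases mul_eq_zero.1 h1 with h2 | h2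
  · exact h h2
  · have h3 : aeval (xR W) (p - q * (C W.a₁ * X + C W.a₃)) + aeval (xR W) (-q) * yR W = 0 := by
      simp only [map_sub, map_add, map_mul, map_neg, aeval_C, aeval_X]
      linear_combination h2
    obtain ⟨h4, h5⟩ := pq_eq_zero W h3
    have hq : q = 0 := neg_eq_zero.1 h5
    rw [hq, zero_mul, sub_zero] at h4
    apply h
    simp [h4, hq]

theorem evR_injective {L : Type} [Field L] [Algebra K L] {x y : L} (h : Eqn W x y)
    (hx : Transcendental K x) : Function.Injective (evR h) := by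
  rw [injective_iff_map_eq_zero]
  intro r hr
  obtain ⟨p, q, rfl⟩ := exists_pq W r
  by_contra hne
  rw [evR_pq] at hr
  have h1 := norm_eq h p q
  rw [hr, zero_mul] at h1
  exact hx ⟨_, normPoly_ne_zero hne, h1.symm⟩

/-- The homomorphism of function fields given by a point with transcendental abscissa. -/
noncomputable def liftF {L : Type} [Field L] [Algebra K L] {x y : L} (h : Eqn W x y)
    (hx : Transcendental K x) : W.FunctionField →ₐ[K] L :=
  IsFractionRing.liftAlgHom (g := evR h) (evR_injective h hx)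

theorem liftF_algebraMap {L : Type} [Field L] [Algebra K L] {x y : L} (h : Eqn W x y)
    (hx : Transcendental K x) (r : W.CoordinateRing) :
    liftF h hx (algebraMap _ _ r) = evR h r := by
  simp [liftF]

@[simp] theorem liftF_x {L : Type} [Field L] [Algebra K L] {x y : L} (h : Eqn W x y)
    (hx : Transcendental K x) : liftF h hx (xF W) = x := by
  rw [xF, liftF_algebraMap, evR_x]

@[simp] theorem liftF_y {L : Type} [Field L] [Algebra K L] {x y : L} (h : Eqn W x y)
    (hx : Transcendental K x) : liftF h hx (yF W) = y := by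
  rw [yF, liftF_algebraMap, evR_y]

theorem algebraMap_pq (p q : K[X]) :
    algebraMap W.CoordinateRing W.FunctionField (aeval (xR W) p + aeval (xR W) q * yR W) =
      aeval (xF W) p + aeval (xF W) q * yF W := by
  rw [map_add, map_mul, ← aeval_algebraMap_apply, ← aeval_algebraMap_apply]
  rfl

variable (W) in
theorem transcendental_xF : Transcendental K (xF W) := by
  rintro ⟨p, hp, h⟩
  have h1 := algebraMap_pq (W := W) p 0
  rw [map_zero (aeval (xF W)), zero_mul, add_zero, h] at h1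
  have h2 := IsFractionRing.injective W.CoordinateRing W.FunctionField
    (h1.trans (map_zero _).symm)
  exact hp (pq_eq_zero W h2).1

theorem mem_of_xy (S : IntermediateField K W.FunctionField) (hx : xF W ∈ S) (hy : yF W ∈ S)
    (g : W.FunctionField) : g ∈ S := by
  have hp : ∀ p : K[X], aeval (xF W) p ∈ S := fun p => by
    have := aeval_algHom_apply S.val ⟨xF W, hx⟩ p
    simp only [IntermediateField.coe_val] at this
    rw [this]
    exact Subtype.prop _
  have hR : ∀ r : W.CoordinateRing, algebraMap W.CoordinateRing W.FunctionField r ∈ S := by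
    intro r
    obtain ⟨p, q, rfl⟩ := exists_pq W r
    rw [algebraMap_pq]
    exact add_mem (hp p) (mul_mem (hp q) hy)
  obtain ⟨a, b, -, rfl⟩ := IsFractionRing.div_surjective (A := W.CoordinateRing) g
  exact div_mem (hR a) (hR b)

/-- The isomorphism of function fields given by a generating point. -/
noncomputable def equivF {W' : WeierstrassCurve.Affine K} {x y : W'.FunctionField}
    (h : Eqn W x y) (hx : Transcendental K x)
    (h1 : ∀ S : IntermediateField K W'.FunctionField, x ∈ S → y ∈ S → xF W' ∈ S ∧ yF W' ∈ S) :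
    W.FunctionField ≃ₐ[K] W'.FunctionField :=
  AlgEquiv.ofBijective (liftF h hx) ⟨(liftF h hx).injective, fun g => by
    have h2 := h1 (liftF h hx).fieldRange ⟨xF W, liftF_x h hx⟩ ⟨yF W, liftF_y h hx⟩
    exact mem_of_xy _ h2.1 h2.2 g⟩

@[simp] theorem equivF_x {W' : WeierstrassCurve.Affine K} {x y : W'.FunctionField}
    (h : Eqn W x y) (hx : Transcendental K x)
    (h1 : ∀ S : IntermediateField K W'.FunctionField, x ∈ S → y ∈ S → xF W' ∈ S ∧ yF W' ∈ S) :
    equivF h hx h1 (xF W) = x := liftF_x h hx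

@[simp] theorem equivF_y {W' : WeierstrassCurve.Affine K} {x y : W'.FunctionField}
    (h : Eqn W x y) (hx : Transcendental K x)
    (h1 : ∀ S : IntermediateField K W'.FunctionField, x ∈ S → y ∈ S → xF W' ∈ S ∧ yF W' ∈ S) :
    equivF h hx h1 (yF W) = y := liftF_y h hx

theorem transcendental_of_mem {L : Type} [Field L] [Algebra K L] {x z : L}
    (hx : Transcendental K x) (h : ∀ S : IntermediateField K L, z ∈ S → x ∈ S) :
    Transcendental K z := by
  intro hz
  exact hx (h (algebraicClosure K L) (mem_algebraicClosure_iff.2 hz) |> mem_algebraicClosure_iff.1)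

theorem Eqn.variableChange {L : Type} [Field L] [Algebra K L] (W : WeierstrassCurve K)
    (C : VariableChange K) {x y : L} (e : Eqn (C • W).toAffine x y) :
    Eqn W.toAffine (algebraMap K L C.u ^ 2 * x + algebraMap K L C.r)
      (algebraMap K L C.u ^ 3 * y + algebraMap K L C.u ^ 2 * algebraMap K L C.s * x +
        algebraMap K L C.t) := by
  have hu0 : algebraMap K L C.u ≠ 0 := by
    rw [Ne, map_eq_zero]
    exact C.u.ne_zero
  have hui : algebraMap K L (C.u⁻¹ : Kˣ) = (algebraMap K L C.u)⁻¹ := by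
    rw [Units.val_inv_eq_inv_val, map_inv₀]
  unfold Eqn at e ⊢
  simp only [variableChange_a₁, variableChange_a₂, variableChange_a₃, variableChange_a₄,
    variableChange_a₆, map_mul, map_add, map_sub, map_pow, hui, map_ofNat] at e
  field_simp at e
  linear_combination e

/-- A change of variables induces an isomorphism of function fields. -/
theorem nonempty_equiv_variableChange (W : WeierstrassCurve K) (C : VariableChange K) :
    Nonempty (W.toAffine.FunctionField ≃ₐ[K] (C • W).toAffine.FunctionField) := by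
  have heq := Eqn.variableChange W C (eqn_F (C • W).toAffine)
  have hu0 : algebraMap K (C • W).toAffine.FunctionField C.u ≠ 0 := by
    rw [Ne, map_eq_zero]
    exact C.u.ne_zero
  have key : ∀ {L : Type} [Field L] [Algebra K L] (S : IntermediateField K L) (u r : K) (x : L)
      (n : ℕ), algebraMap K L u ≠ 0 → algebraMap K L u ^ n * x + algebraMap K L r ∈ S → x ∈ S := by
    intro L _ _ S u r x n hu h
    have : x = (algebraMap K L u ^ n * x + algebraMap K L r - algebraMap K L r) /
        algebraMap K L u ^ n := by field_simp; ring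
    rw [this]
    exact div_mem (sub_mem h (S.algebraMap_mem _)) (pow_mem (S.algebraMap_mem _) _)
  refine ⟨equivF heq (transcendental_of_mem (transcendental_xF _) fun S h => key S _ _ _ _ hu0 h)
    fun S h1 h2 => ⟨key S _ _ _ _ hu0 h1, key S C.u C.t _ 3 hu0 ?_⟩⟩
  have h3 := sub_mem h2 (mul_mem (mul_mem (pow_mem (S.algebraMap_mem C.u) 2)
    (S.algebraMap_mem C.s)) (key S _ _ _ _ hu0 h1))
  convert h3 using 1
  ring

end Pool.Agent.MP_fb6b45_ag

end MrgPart1

-- ======== part 2: formerly Pool.Agent.MP_fb6b45_ag.Places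
section MrgPart2

set_option autoImplicit false

namespace Pool.Agent.MP_fb6b45_ag

open Polynomial WeierstrassCurve WeierstrassCurve.Affine WithZero

variable {K : Type} [Field K]

/-- The normal form of an ordinary elliptic curve in characteristic two. -/
def W0 (r : K) : WeierstrassCurve.Affine K := ⟨1, 0, 0, 0, r ^ 4⟩

theorem eqn0 {r : K} {L : Type} [CommRing L] [Algebra K L] {x y : L} :
    Eqn (W0 r) x y ↔ y ^ 2 + x * y = x ^ 3 + algebraMap K L r ^ 4 := by
  simp [Eqn, W0]

theorem ker_ev {W : WeierstrassCurve.Affine K} {x0 y0 : K} (h : Eqn W x0 y0)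
    {g : W.CoordinateRing} (hg : evR h g = 0) :
    ∃ A B, g = (xR W - algebraMap K _ x0) * A + (yR W - algebraMap K _ y0) * B := by
  obtain ⟨p, q, rfl⟩ := exists_pq W g
  rw [evR_pq, coe_aeval_eq_eval] at hg
  obtain ⟨p1, hp⟩ := X_sub_C_dvd_sub_C_eval (p := p) (a := x0)
  obtain ⟨q1, hq⟩ := X_sub_C_dvd_sub_C_eval (p := q) (a := x0)
  have hp' := congrArg (aeval (xR W)) hp
  have hq' := congrArg (aeval (xR W)) hq
  have hg' := congrArg (algebraMap K W.CoordinateRing) hg
  simp only [map_sub, map_mul, aeval_C, aeval_X, map_add, map_zero] at hp' hq' hg'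
  refine ⟨aeval (xR W) p1 + aeval (xR W) q1 * yR W, algebraMap K _ (eval x0 q), ?_⟩
  linear_combination hp' + yR W * hq' + hg'

theorem v_aeval_le {F : Type} [Field F] [Algebra K F] (P : Place K F) {x : F} (hx : P.v x ≤ 1)
    (p : K[X]) : P.v (aeval x p) ≤ 1 := by
  induction p using Polynomial.induction_on' with
  | add p q hp hq => rw [map_add]; exact P.v.map_add_le hp hq
  | monomial n c =>
    rw [aeval_monomial, map_mul, map_pow]
    exact mul_le_one' (P.triv c) (pow_le_one' hx n)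

theorem v_R_le {W : WeierstrassCurve.Affine K} (P : Place K W.FunctionField)
    (hx : P.v (xF W) ≤ 1) (hy : P.v (yF W) ≤ 1) (g : W.CoordinateRing) :
    P.v (algebraMap _ _ g) ≤ 1 := by
  obtain ⟨p, q, rfl⟩ := exists_pq W g
  rw [algebraMap_pq]
  refine P.v.map_add_le (v_aeval_le P hx p) ?_
  rw [map_mul]
  exact mul_le_one' (v_aeval_le P hx q) hy

theorem Place.le_one_of_sub {F : Type} [Field F] [Algebra K F] (P : Place K F) {g : F} {c : K}
    (h : P.v (g - algebraMap K F c) < 1) : P.v g ≤ 1 := by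
  have := P.v.map_add_le h.le (P.triv c)
  rwa [sub_add_cancel] at this

theorem centered_of_lt {W : WeierstrassCurve.Affine K} {x0 y0 : K} (h : Eqn W x0 y0)
    (P : Place K W.FunctionField) (hx : P.v (xF W - algebraMap K _ x0) < 1)
    (hy : P.v (yF W - algebraMap K _ y0) < 1) : Centered (evR h) P := by
  have h1 := v_R_le P (P.le_one_of_sub hx) (P.le_one_of_sub hy)
  refine ⟨h1, fun g hg => ?_⟩
  obtain ⟨A, B, rfl⟩ := ker_ev h hg
  rw [map_add, map_mul, map_mul, map_sub, map_sub, ← IsScalarTower.algebraMap_apply,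
    ← IsScalarTower.algebraMap_apply]
  refine P.v.map_add_lt ?_ ?_
  · rw [map_mul]
    exact mul_lt_one_of_lt_of_le hx (h1 A)
  · rw [map_mul]
    exact mul_lt_one_of_lt_of_le hy (h1 B)

theorem Centered.x_lt {W : WeierstrassCurve.Affine K} {x0 y0 : K} {h : Eqn W x0 y0}
    {P : Place K W.FunctionField} (hP : Centered (evR h) P) :
    P.v (xF W - algebraMap K _ x0) < 1 := by
  have := hP.sub_lt (xR W)
  rwa [evR_x] at this

theorem Centered.y_lt {W : WeierstrassCurve.Affine K} {x0 y0 : K} {h : Eqn W x0 y0}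
    {P : Place K W.FunctionField} (hP : Centered (evR h) P) :
    P.v (yF W - algebraMap K _ y0) < 1 := by
  have := hP.sub_lt (yR W)
  rwa [evR_y] at this

theorem poly_ind [IsAlgClosed K] {F : Type} [Field F] [Algebra K F] {x : F} (Q : F → Prop)
    (hc : ∀ c : K, c ≠ 0 → Q (algebraMap K F c)) (hx : ∀ c : K, Q (x - algebraMap K F c))
    (hm : ∀ a b, Q a → Q b → Q (a * b)) (p : K[X]) (hp : p ≠ 0) : Q (aeval x p) := by
  induction hn : p.natDegree generalizing p with
  | zero =>
    rw [eq_C_of_natDegree_eq_zero hn, aeval_C]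
    refine hc _ fun h0 => hp ?_
    rw [eq_C_of_natDegree_eq_zero hn, h0, map_zero]
  | succ n ih =>
    obtain ⟨c, hc'⟩ := IsAlgClosed.exists_root p (by
      rw [degree_eq_natDegree hp, hn]; exact_mod_cast Nat.succ_ne_zero n)
    obtain ⟨q, rfl⟩ := dvd_iff_isRoot.2 hc'
    have hq : q ≠ 0 := right_ne_zero_of_mul hp
    rw [natDegree_mul (X_sub_C_ne_zero c) hq, natDegree_X_sub_C] at hn
    rw [map_mul, map_sub, aeval_X, aeval_C]
    exact hm _ _ (hx c) (ih q hq (by omega))

section normal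

variable [CharP K 2] {r : K}

instance charP_F (W : WeierstrassCurve.Affine K) : CharP W.FunctionField 2 :=
  charP_of_injective_algebraMap (algebraMap K W.FunctionField).injective 2

theorem two_R (W : WeierstrassCurve.Affine K) : (2 : W.CoordinateRing) = 0 := by
  have := congrArg (algebraMap K W.CoordinateRing) (CharTwo.two_eq_zero (R := K))
  rwa [map_ofNat, map_zero] at this

theorem pt_data (hr : r ≠ 0) {x0 y0 : K} (h : Eqn (W0 r) x0 y0) :
    ∃ t : (W0 r).CoordinateRing, t ≠ 0 ∧ evR h t = 0 ∧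
      ((x0 ≠ 0 ∧ t = xR _ - algebraMap K _ x0) ∨ (x0 = 0 ∧ t = yR _ - algebraMap K _ y0)) ∧
      (∃ P : Place K (W0 r).FunctionField, Centered (evR h) P) ∧
      ∀ g : (W0 r).CoordinateRing, g ≠ 0 →
        ∃ (n : ℕ) (s u : (W0 r).CoordinateRing), evR h s ≠ 0 ∧ evR h u ≠ 0 ∧ g * s = t ^ n * u := by
  have e := eqn0.1 (eqn_R (W0 r))
  have e0 := eqn0.1 (h.map (Algebra.ofId K (W0 r).CoordinateRing))
  simp only [Algebra.ofId_apply] at e0
  have e1 := eqn0.1 h
  simp only [Algebra.algebraMap_self, RingHom.id_apply] at e1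
  have h2 := two_R (W0 r)
  have h2K : (2 : K) = 0 := CharTwo.two_eq_zero
  by_cases hx : x0 = 0
  · subst hx
    have ht0 : yR (W0 r) - algebraMap K _ y0 ≠ 0 := by
      intro h0
      have := pq_eq_zero (W0 r) (p := - C y0) (q := 1) (by
        simp only [map_neg, aeval_C, map_one]; linear_combination h0)
      exact one_ne_zero this.2
    have ht : evR h (yR (W0 r) - algebraMap K _ y0) = 0 := by simp
    refine ⟨_, ht0, ht, Or.inr ⟨rfl, rfl⟩, local_structure (evR h) _ ht0 ht fun g hg => ?_⟩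
    obtain ⟨A, B, rfl⟩ := ker_ev h hg
    refine ⟨yR _ + xR _ ^ 2, A * (yR (W0 r) - algebraMap K _ y0) + B * (yR _ + xR _ ^ 2), ?_, ?_⟩
    · simp only [map_add, map_pow, evR_x, evR_y]
      intro h0
      apply hr
      have : y0 = 0 := by linear_combination h0
      rw [this] at e1
      exact pow_eq_zero_iff (n := 4) (by norm_num) |>.1 (by linear_combination -e1)
    · simp only [map_zero] at e0 ⊢
      linear_combination A * e - A * e0 + (A * (xR (W0 r) ^ 3 - yR (W0 r) ^ 2 +
        yR (W0 r) * algebraMap K _ y0)) * h2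
  · have ht0 : xR (W0 r) - algebraMap K _ x0 ≠ 0 := by
      intro h0
      have := pq_eq_zero (W0 r) (p := X - C x0) (q := 0) (by
        simp only [map_sub, aeval_C, aeval_X, map_zero]; linear_combination h0)
      exact X_sub_C_ne_zero x0 this.1
    have ht : evR h (xR (W0 r) - algebraMap K _ x0) = 0 := by simp
    refine ⟨_, ht0, ht, Or.inl ⟨hx, rfl⟩, local_structure (evR h) _ ht0 ht fun g hg => ?_⟩
    obtain ⟨A, B, rfl⟩ := ker_ev h hg
    refine ⟨yR _ + algebraMap K _ y0 + xR _, A * (yR _ + algebraMap K _ y0 + xR _) +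
      B * (xR _ ^ 2 + xR _ * algebraMap K _ x0 + algebraMap K _ x0 ^ 2 - algebraMap K _ y0), ?_, ?_⟩
    · simp only [map_add, evR_x, evR_y, AlgHom.commutes, Algebra.algebraMap_self, RingHom.id_apply]
      intro h0
      apply hx
      linear_combination h0 - y0 * h2K
    · linear_combination B * e - B * e0

theorem exists_centered (hr : r ≠ 0) {x0 y0 : K} (h : Eqn (W0 r) x0 y0) :
    ∃ P : Place K (W0 r).FunctionField, Centered (evR h) P := by
  obtain ⟨t, -, -, -, h1, -⟩ := pt_data hr h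
  exact h1

theorem centered_unique (hr : r ≠ 0) {x0 y0 : K} {h : Eqn (W0 r) x0 y0}
    {P Q : Place K (W0 r).FunctionField} (hP : Centered (evR h) P) (hQ : Centered (evR h) Q) :
    P = Q := by
  obtain ⟨t, h1, h2, -, -, h3⟩ := pt_data hr h
  exact hP.unique h1 h2 h3 hQ

theorem centered_residue (hr : r ≠ 0) {x0 y0 : K} {h : Eqn (W0 r) x0 y0}
    {P : Place K (W0 r).FunctionField} (hP : Centered (evR h) P) {g : (W0 r).FunctionField}
    (hg : P.v g ≤ 1) : ∃ c : K, P.v (g - algebraMap K _ c) < 1 := by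
  obtain ⟨t, h1, h2, -, -, h3⟩ := pt_data hr h
  exact hP.residue h1 h2 h3 hg

theorem centered_v_x (hr : r ≠ 0) {x0 y0 : K} {h : Eqn (W0 r) x0 y0}
    {P : Place K (W0 r).FunctionField} (hP : Centered (evR h) P) (hx : x0 ≠ 0) :
    P.v (xF _ - algebraMap K _ x0) = exp (-1) := by
  obtain ⟨t, h1, h2, h4, -, h3⟩ := pt_data hr h
  have := hP.v_t h1 h2 h3
  rcases h4 with ⟨-, rfl⟩ | ⟨h5, -⟩
  · rwa [map_sub, ← IsScalarTower.algebraMap_apply] at this
  · exact absurd h5 hx

theorem centered_v_y (hr : r ≠ 0) {y0 : K} {h : Eqn (W0 r) 0 y0}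
    {P : Place K (W0 r).FunctionField} (hP : Centered (evR h) P) :
    P.v (yF _ - algebraMap K _ y0) = exp (-1) := by
  obtain ⟨t, h1, h2, h4, -, h3⟩ := pt_data hr h
  have := hP.v_t h1 h2 h3
  rcases h4 with ⟨h5, -⟩ | ⟨-, rfl⟩
  · exact absurd rfl h5
  · rwa [map_sub, ← IsScalarTower.algebraMap_apply] at this

theorem y0_eq {y0 : K} (h : Eqn (W0 r) 0 y0) : y0 = r ^ 2 := by
  have e1 := eqn0.1 h
  simp only [Algebra.algebraMap_self, RingHom.id_apply] at e1
  have h2K : (2 : K) = 0 := CharTwo.two_eq_zero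
  have : (y0 - r ^ 2) ^ 2 = 0 := by linear_combination e1 + (r ^ 4 - y0 * r ^ 2) * h2K
  exact sub_eq_zero.1 (pow_eq_zero_iff (by norm_num) |>.1 this)

omit [CharP K 2] in
theorem eqnT : Eqn (W0 r) 0 (r ^ 2) := by
  rw [eqn0]
  simp only [Algebra.algebraMap_self, RingHom.id_apply]
  ring

theorem centered_v_xT (hr : r ≠ 0) {y0 : K} {h : Eqn (W0 r) 0 y0}
    {P : Place K (W0 r).FunctionField} (hP : Centered (evR h) P) : P.v (xF _) = exp (-2) := by
  have h1 := centered_v_y hr hP
  have hy := y0_eq h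
  subst hy
  have e := eqn0.1 (eqn_F (W0 r))
  have h2 : (2 : (W0 r).FunctionField) = 0 := CharTwo.two_eq_zero
  have h3 : P.v (yF _ + xF _ ^ 2) = 1 := by
    have := hP.eq_one (r := yR _ + xR _ ^ 2) (by simpa using hr)
    rwa [map_add, map_pow] at this
  have h4 : xF (W0 r) * (yF _ + xF _ ^ 2) = (yF _ - algebraMap K _ (r ^ 2)) ^ 2 := by
    rw [map_pow]
    linear_combination e + (xF (W0 r) ^ 3 - yF (W0 r) ^ 2 +
      yF (W0 r) * algebraMap K _ r ^ 2) * h2
  have h5 := congrArg P.v h4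
  rw [map_mul, h3, mul_one, map_pow, h1, ← exp_nsmul] at h5
  exact h5

omit [CharP K 2] in
theorem v_y_le (P : Place K (W0 r).FunctionField) (hx : P.v (xF _) ≤ 1) : P.v (yF _) ≤ 1 := by
  by_contra hc
  rw [not_le] at hc
  have e := eqn0.1 (eqn_F (W0 r))
  have h1 : P.v (yF _ + xF _) = P.v (yF _) := P.v.map_add_eq_of_lt_left (hx.trans_lt hc)
  have h2 : P.v (xF _ ^ 3 + algebraMap K _ r ^ 4) ≤ 1 := by
    refine P.v.map_add_le ?_ ?_
    · rw [map_pow]; exact pow_le_one' hx _
    · rw [map_pow]; exact pow_le_one' (P.triv r) _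
  rw [← e, show yF (W0 r) ^ 2 + xF _ * yF _ = yF _ * (yF _ + xF _) by ring, map_mul, h1] at h2
  exact absurd h2 (not_le.2 (one_lt_mul'' hc hc))

omit [CharP K 2] in
theorem conj_eq {L : Type} [CommRing L] [Algebra K L] (h2 : (2 : L) = 0) (x y : L) :
    -y - algebraMap K L (W0 r).a₁ * x - algebraMap K L (W0 r).a₃ = y + x := by
  simp only [W0, map_one, map_zero]
  linear_combination (-x - y) * h2

omit [CharP K 2] in
theorem xF_ne_zero (W : WeierstrassCurve.Affine K) (c : K) : xF W - algebraMap K _ c ≠ 0 := by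
  intro h
  apply transcendental_xF W
  rw [sub_eq_zero.1 h]
  exact isAlgebraic_algebraMap c

/-- The involution `P ↦ -P`. -/
noncomputable def sigma (r : K) : (W0 r).FunctionField ≃ₐ[K] (W0 r).FunctionField :=
  equivF (x := xF _) (y := yF _ + xF _) (by
    have e := eqn0.1 (eqn_F (W0 r))
    have h2 : (2 : (W0 r).FunctionField) = 0 := CharTwo.two_eq_zero
    rw [eqn0]
    linear_combination e + (xF (W0 r) * yF (W0 r) + xF (W0 r) ^ 2) * h2) (transcendental_xF _)
    fun S h1 h2 => ⟨h1, by simpa using sub_mem h2 h1⟩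

theorem sigma_x : sigma r (xF _) = xF _ := equivF_x _ _ _

theorem sigma_y : sigma r (yF _) = yF _ + xF _ := equivF_y _ _ _

theorem sigma_pq (p q : K[X]) : sigma r (aeval (xF (W0 r)) p + aeval (xF (W0 r)) q * yF _) =
    aeval (xF (W0 r)) p + aeval (xF (W0 r)) q * (yF _ + xF _) := by
  rw [map_add, map_mul, ← aeval_algHom_apply (sigma r), ← aeval_algHom_apply (sigma r), sigma_x,
    sigma_y]

theorem eqn_tau (r : K) : Eqn (W0 r) (algebraMap K _ r ^ 2 / xF (W0 r))
    (algebraMap K _ r ^ 2 * (yF (W0 r) + algebraMap K _ r ^ 2) / xF (W0 r) ^ 2 +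
      algebraMap K _ r ^ 2 / xF (W0 r) + algebraMap K _ r ^ 2) := by
  have e := eqn0.1 (eqn_F (W0 r))
  have h2 : (2 : (W0 r).FunctionField) = 0 := CharTwo.two_eq_zero
  have hx : xF (W0 r) ≠ 0 := by simpa using xF_ne_zero (W0 r) 0
  rw [eqn0]
  field_simp
  grind

omit [CharP K 2] in
theorem tau_mem_x (hr : r ≠ 0) (S : IntermediateField K (W0 r).FunctionField)
    (h : algebraMap K _ r ^ 2 / xF (W0 r) ∈ S) : xF (W0 r) ∈ S := by
  have hx : xF (W0 r) ≠ 0 := by simpa using xF_ne_zero (W0 r) 0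
  have hr' : algebraMap K (W0 r).FunctionField r ≠ 0 := by simpa using hr
  have := div_mem (pow_mem (S.algebraMap_mem r) 2) h
  convert this using 1
  field_simp

omit [CharP K 2] in
theorem tau_mem (hr : r ≠ 0) (S : IntermediateField K (W0 r).FunctionField)
    (h2 : algebraMap K _ r ^ 2 / xF (W0 r) ∈ S)
    (h3 : algebraMap K _ r ^ 2 * (yF (W0 r) + algebraMap K _ r ^ 2) / xF (W0 r) ^ 2 +
      algebraMap K _ r ^ 2 / xF (W0 r) + algebraMap K _ r ^ 2 ∈ S) :
    xF (W0 r) ∈ S ∧ yF (W0 r) ∈ S := by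
  have hx : xF (W0 r) ≠ 0 := by simpa using xF_ne_zero (W0 r) 0
  have hr' : algebraMap K (W0 r).FunctionField r ≠ 0 := by simpa using hr
  refine ⟨tau_mem_x hr S h2, ?_⟩
  have hb := pow_mem (S.algebraMap_mem r) 2
  have := sub_mem (div_mem (mul_mem (sub_mem (sub_mem h3 h2) hb)
    (pow_mem (tau_mem_x hr S h2) 2)) hb) hb
  convert this using 1
  field_simp
  ring

/-- The translation by the point of order two. -/
noncomputable def tau (hr : r ≠ 0) : (W0 r).FunctionField ≃ₐ[K] (W0 r).FunctionField :=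
  equivF (eqn_tau r) (transcendental_of_mem (transcendental_xF _) (tau_mem_x hr)) (tau_mem hr)

theorem tau_x (hr : r ≠ 0) : tau hr (xF _) = algebraMap K _ r ^ 2 / xF (W0 r) :=
  equivF_x _ _ (tau_mem hr)

variable [IsAlgClosed K]

omit [CharP K 2] in
theorem exists_y (x0 : K) : ∃ y0, Eqn (W0 r) x0 y0 := by
  obtain ⟨y0, hy⟩ := IsAlgClosed.exists_root (X ^ 2 + C x0 * X - C (x0 ^ 3 + r ^ 4) : K[X]) (by
    have : (X ^ 2 + C x0 * X - C (x0 ^ 3 + r ^ 4) : K[X]).degree = 2 := by compute_degree!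
    rw [this]; norm_num)
  refine ⟨y0, eqn0.2 ?_⟩
  simp only [IsRoot.def, eval_sub, eval_add, eval_pow, eval_X, eval_mul, eval_C] at hy
  simp only [Algebra.algebraMap_self, RingHom.id_apply]
  linear_combination hy

theorem classify (P : Place K (W0 r).FunctionField) (hx : P.v (xF _) ≤ 1) :
    ∃ (x0 y0 : K) (h : Eqn (W0 r) x0 y0), Centered (evR h) P := by
  have hy := v_y_le P hx
  have e := eqn0.1 (eqn_F (W0 r))
  have h2 : (2 : (W0 r).FunctionField) = 0 := CharTwo.two_eq_zero
  have h1 : ∃ x0 : K, P.v (xF _ - algebraMap K _ x0) < 1 := by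
    by_contra hc
    push Not at hc
    have hp : ∀ p : K[X], p ≠ 0 → P.v (aeval (xF (W0 r)) p) = 1 :=
      poly_ind (fun g => P.v g = 1) (fun c hc => P.v_const hc)
        (fun c => le_antisymm (P.v.map_sub_le hx (P.triv c)) (hc c))
        fun a b ha hb => by rw [map_mul, ha, hb, mul_one]
    have hR : ∀ g : (W0 r).CoordinateRing, g ≠ 0 → P.v (algebraMap _ _ g) = 1 := by
      intro g hg
      refine le_antisymm (v_R_le P hx hy g) ?_
      obtain ⟨p, q, rfl⟩ := exists_pq _ g
      have h3 := hp _ (normPoly_ne_zero hg)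
      rw [← norm_eq (eqn_F (W0 r)), conj_eq h2, map_mul] at h3
      rw [algebraMap_pq]
      have h4 : P.v (aeval (xF (W0 r)) p + aeval (xF (W0 r)) q * (yF _ + xF _)) ≤ 1 := by
        refine P.v.map_add_le (v_aeval_le P hx p) ?_
        rw [map_mul]
        exact mul_le_one' (v_aeval_le P hx q) (P.v.map_add_le hy hx)
      by_contra h5
      exact absurd h3 (mul_lt_one_of_lt_of_le (not_le.1 h5) h4).ne
    obtain ⟨g, hg⟩ := P.surj (exp (-1))
    obtain ⟨a, b, hb, rfl⟩ := IsFractionRing.div_surjective (A := (W0 r).CoordinateRing) g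
    have ha : a ≠ 0 := by
      rintro rfl
      rw [map_zero, zero_div, map_zero] at hg
      exact exp_ne_zero hg.symm
    rw [map_div₀, hR a ha, hR b (nonZeroDivisors.ne_zero hb), div_one, ← exp_zero, exp_inj] at hg
    omega
  obtain ⟨x0, hx0⟩ := h1
  obtain ⟨y0, h0⟩ := exists_y (r := r) x0
  have e0 := eqn0.1 (h0.map (Algebra.ofId K (W0 r).FunctionField))
  simp only [Algebra.ofId_apply] at e0
  have h3 : (yF (W0 r) - algebraMap K _ y0) * (yF (W0 r) - algebraMap K _ (y0 + x0)) =
      (xF _ - algebraMap K _ x0) * (xF _ ^ 2 + xF _ * algebraMap K _ x0 + algebraMap K _ x0 ^ 2 -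
        yF _) := by
    rw [map_add]
    linear_combination e - e0 + (algebraMap K _ y0 ^ 2 + algebraMap K _ x0 * algebraMap K _ y0 -
      yF (W0 r) * algebraMap K _ y0 - yF (W0 r) * algebraMap K _ x0) * h2
  have h4 : P.v ((yF (W0 r) - algebraMap K _ y0) * (yF (W0 r) - algebraMap K _ (y0 + x0))) < 1 := by
    rw [h3, map_mul]
    refine mul_lt_one_of_lt_of_le hx0 (P.v.map_sub_le (P.v.map_add_le (P.v.map_add_le ?_ ?_) ?_) hy)
    · rw [map_pow]; exact pow_le_one' hx _
    · rw [map_mul]; exact mul_le_one' hx (P.triv _)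
    · rw [map_pow]; exact pow_le_one' (P.triv _) _
  rw [map_mul] at h4
  by_cases h5 : P.v (yF (W0 r) - algebraMap K _ y0) < 1
  · exact ⟨x0, y0, h0, centered_of_lt h0 P hx0 h5⟩
  · have h6 : P.v (yF (W0 r) - algebraMap K _ (y0 + x0)) < 1 := by
      by_contra h6
      exact absurd h4 (not_lt.2 (one_le_mul (not_lt.1 h5) (not_lt.1 h6)))
    have h0' : Eqn (W0 r) x0 (y0 + x0) := by
      have h2K : (2 : K) = 0 := CharTwo.two_eq_zero
      rw [eqn0] at h0 ⊢
      linear_combination h0 + (x0 * y0 + x0 ^ 2) * h2K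
    exact ⟨x0, y0 + x0, h0', centered_of_lt h0' P hx0 h6⟩

theorem inf_centered (hr : r ≠ 0) (P : Place K (W0 r).FunctionField) (hx : 1 < P.v (xF _)) :
    Centered (evR (eqnT (r := r))) (P.comap (tau hr)) := by
  have h1 : (P.comap (tau hr)).v (xF _) < 1 := by
    rw [Place.comap_v, tau_x, map_div₀, map_pow, P.v_const hr, one_pow, one_div]
    exact inv_lt_one_of_one_lt₀ hx
  obtain ⟨x0, y0, h, hP⟩ := classify _ h1.le
  have hx0 : x0 = 0 := by
    by_contra hc
    exact absurd (Place.v_eq_one_of_sub _ hc hP.x_lt) h1.ne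
  subst hx0
  obtain rfl := y0_eq h
  exact hP

theorem inf_unique (hr : r ≠ 0) {P Q : Place K (W0 r).FunctionField} (hP : 1 < P.v (xF _))
    (hQ : 1 < Q.v (xF _)) : P = Q :=
  (Place.equiv (tau hr)).injective (centered_unique hr (inf_centered hr P hP) (inf_centered hr Q hQ))

theorem inf_v_x (hr : r ≠ 0) {P : Place K (W0 r).FunctionField} (hP : 1 < P.v (xF _)) :
    P.v (xF _) = exp 2 := by
  have h := centered_v_xT hr (inf_centered hr P hP)
  rw [Place.comap_v, tau_x, map_div₀, map_pow, P.v_const hr, one_pow, one_div, exp_neg,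
    inv_inj] at h
  exact h

omit [IsAlgClosed K] in
theorem exists_inf (hr : r ≠ 0) : ∃ P : Place K (W0 r).FunctionField, 1 < P.v (xF _) := by
  obtain ⟨T, hT⟩ := exists_centered hr (eqnT (r := r))
  refine ⟨T.comap (tau hr), ?_⟩
  rw [Place.comap_v, tau_x, map_div₀, map_pow, T.v_const hr, one_pow, one_div,
    centered_v_xT hr hT, ← exp_neg, ← exp_zero, exp_lt_exp]
  norm_num

theorem residue (hr : r ≠ 0) (P : Place K (W0 r).FunctionField) {g : (W0 r).FunctionField}
    (hg : P.v g ≤ 1) : ∃ c : K, P.v (g - algebraMap K _ c) < 1 := by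
  rcases le_or_gt (P.v (xF _)) 1 with hx | hx
  · obtain ⟨x0, y0, h, hP⟩ := classify P hx
    exact centered_residue hr hP hg
  · obtain ⟨c, hc⟩ := centered_residue hr (inf_centered hr P hx) (g := (tau hr).symm g)
      (by simpa using hg)
    exact ⟨c, by simpa using hc⟩

end normal

end Pool.Agent.MP_fb6b45_ag

end MrgPart2

-- ======== part 3: formerly Pool.Agent.MP_fb6b45_ag.Product
section MrgPart3

set_option autoImplicit false

namespace Pool.Agent.MP_fb6b45_ag

open Polynomial WeierstrassCurve WeierstrassCurve.Affine WithZero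

variable {K : Type} [Field K]

section ord

variable {F : Type} [Field F] [Algebra K F]

/-- The order of vanishing at a place. -/
noncomputable def ord (P : Place K F) (g : F) : ℤ := - log (P.v g)

theorem v_eq_exp (P : Place K F) {g : F} (hg : g ≠ 0) : P.v g = exp (- ord P g) := by
  rw [ord, neg_neg, exp_log]
  simpa using hg

theorem ord_eq {P : Place K F} {g : F} {n : ℤ} (h : P.v g = exp n) : ord P g = - n := by
  rw [ord, h, log_exp]

theorem ord_of_one {P : Place K F} {g : F} (h : P.v g = 1) : ord P g = 0 := by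
  rw [ord, h, log_one, neg_zero]

theorem ord_mul (P : Place K F) {g h : F} (hg : g ≠ 0) (hh : h ≠ 0) :
    ord P (g * h) = ord P g + ord P h := by
  rw [ord_eq (n := - ord P g + - ord P h) (by rw [map_mul, v_eq_exp P hg, v_eq_exp P hh, exp_add])]
  ring

theorem ord_nonneg {P : Place K F} {g : F} (hg : g ≠ 0) (h : P.v g ≤ 1) : 0 ≤ ord P g := by
  rw [v_eq_exp P hg, ← exp_zero, exp_le_exp] at h
  omega

theorem ord_pos {P : Place K F} {g : F} (hg : g ≠ 0) (h : P.v g < 1) : 0 < ord P g := by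
  rw [v_eq_exp P hg, ← exp_zero, exp_lt_exp] at h
  omega

variable (K) in
/-- A nonzero function whose divisor is finite of degree zero. -/
def Good (g : F) : Prop :=
  g ≠ 0 ∧ (Function.support fun P : Place K F => ord P g).Finite ∧ ∑ᶠ P : Place K F, ord P g = 0

theorem Good.mul {g h : F} (hg : Good K g) (hh : Good K h) : Good K (g * h) := by
  have e : (fun P : Place K F => ord P (g * h)) = fun P => ord P g + ord P h :=
    funext fun P => ord_mul P hg.1 hh.1
  refine ⟨mul_ne_zero hg.1 hh.1, ?_, ?_⟩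
  · rw [e]
    exact (hg.2.1.union hh.2.1).subset (Function.support_add _ _)
  · rw [e, finsum_add_distrib hg.2.1 hh.2.1, hg.2.2, hh.2.2, add_zero]

theorem Good.const {c : K} (hc : c ≠ 0) : Good K (algebraMap K F c) := by
  have e : (fun P : Place K F => ord P (algebraMap K F c)) = fun _ => 0 :=
    funext fun P => ord_of_one (P.v_const hc)
  refine ⟨by simpa using hc, ?_, ?_⟩
  · rw [e]; simp
  · rw [e]; simp

theorem Good.inv {g : F} (hg : Good K g) : Good K g⁻¹ := by
  have e : (fun P : Place K F => ord P g⁻¹) = fun P => - ord P g := funext fun P => by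
    have := ord_mul P hg.1 (inv_ne_zero hg.1)
    rw [mul_inv_cancel₀ hg.1, ord_of_one (map_one _)] at this
    linarith
  refine ⟨inv_ne_zero hg.1, ?_, ?_⟩
  · rw [e]
    exact hg.2.1.subset fun P hP => by simpa using hP
  · rw [e, finsum_neg_distrib, hg.2.2, neg_zero]

end ord

variable [CharP K 2] [IsAlgClosed K] {r : K}

theorem inf_v_sub (hr : r ≠ 0) {P : Place K (W0 r).FunctionField} (hP : 1 < P.v (xF _)) (c : K) :
    P.v (xF _ - algebraMap K _ c) = exp 2 := by
  rw [P.v.map_sub_eq_of_lt_left ((P.triv c).trans_lt hP), inf_v_x hr hP]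

theorem good_x (hr : r ≠ 0) (x0 : K) : Good K (xF (W0 r) - algebraMap K _ x0) := by
  classical
  have h2K : (2 : K) = 0 := CharTwo.two_eq_zero
  obtain ⟨O, hO⟩ := exists_inf hr
  obtain ⟨y0, h0⟩ := exists_y (r := r) x0
  have h0' : Eqn (W0 r) x0 (y0 + x0) := by
    rw [eqn0] at h0 ⊢
    linear_combination h0 + (x0 * y0 + x0 ^ 2) * h2K
  obtain ⟨P1, hP1⟩ := exists_centered hr h0
  obtain ⟨P2, hP2⟩ := exists_centered hr h0'
  have hsupp : (Function.support fun P : Place K (W0 r).FunctionField =>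
      ord P (xF (W0 r) - algebraMap K _ x0)) ⊆ ({O, P1, P2} : Finset _) := by
    intro P hP
    simp only [Finset.coe_insert, Finset.coe_singleton, Set.mem_insert_iff, Set.mem_singleton_iff]
    rcases le_or_gt (P.v (xF _)) 1 with hx | hx
    · obtain ⟨x1, y1, h, hP'⟩ := classify P hx
      have hx1 : x1 = x0 := by
        by_contra hc
        apply hP
        refine ord_of_one (P.v_eq_one_of_sub (sub_ne_zero.2 hc) ?_)
        have := hP'.x_lt
        rwa [map_sub (algebraMap K _), sub_sub_sub_cancel_right]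
      subst hx1
      have hy : (y1 - y0) * (y1 - (y0 + x1)) = 0 := by
        rw [eqn0] at h h0
        linear_combination h - h0 + (y0 ^ 2 + x1 * y0 - y1 * y0 - y1 * x1) * h2K
      rcases mul_eq_zero.1 hy with h1 | h1
      · obtain rfl := sub_eq_zero.1 h1
        exact Or.inr (Or.inl (centered_unique hr hP' hP1))
      · obtain rfl := sub_eq_zero.1 h1
        exact Or.inr (Or.inr (centered_unique hr hP' hP2))
    · exact Or.inl (inf_unique hr hx hO)
  have hO1 : O ≠ P1 := by
    rintro rfl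
    exact absurd (O.le_one_of_sub hP1.x_lt) (not_le.2 hO)
  have hO2 : O ≠ P2 := by
    rintro rfl
    exact absurd (O.le_one_of_sub hP2.x_lt) (not_le.2 hO)
  refine ⟨xF_ne_zero _ _, (Finset.finite_toSet _).subset hsupp, ?_⟩
  rw [finsum_eq_sum_of_support_subset _ hsupp, Finset.sum_insert (by simp [hO1, hO2]),
    ord_eq (inf_v_sub hr hO x0)]
  by_cases hx0 : x0 = 0
  · subst hx0
    have : P1 = P2 := by
      refine centered_unique hr hP1 ?_
      convert hP2 using 3
      rw [add_zero]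
    subst this
    rw [Finset.pair_eq_singleton, Finset.sum_singleton, map_zero, sub_zero,
      ord_eq (centered_v_xT hr hP1)]
    norm_num
  · have hne : P1 ≠ P2 := by
      rintro rfl
      have h1 := hP1.y_lt
      have h2 := hP2.y_lt
      have h3 := P1.v.map_sub_lt h1 h2
      rw [map_add, show yF (W0 r) - algebraMap K _ y0 - (yF (W0 r) - (algebraMap K _ y0 +
        algebraMap K _ x0)) = algebraMap K _ x0 by ring, P1.v_const hx0] at h3
      exact lt_irrefl _ h3
    rw [Finset.sum_pair hne, ord_eq (centered_v_x hr hP1 hx0), ord_eq (centered_v_x hr hP2 hx0)]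
    norm_num

theorem good_R (hr : r ≠ 0) {g : (W0 r).CoordinateRing} (hg : g ≠ 0) :
    Good K (algebraMap _ (W0 r).FunctionField g) := by
  obtain ⟨p, q, rfl⟩ := exists_pq _ g
  have h2 : (2 : (W0 r).FunctionField) = 0 := CharTwo.two_eq_zero
  have hN : Good K (aeval (xF (W0 r)) (normPoly (W0 r) p q)) :=
    poly_ind (Good K) (fun c hc => Good.const hc) (good_x hr) (fun a b => Good.mul) _
      (normPoly_ne_zero hg)
  rw [← norm_eq (eqn_F (W0 r)), conj_eq h2, ← sigma_pq] at hN
  rw [algebraMap_pq]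
  set g := aeval (xF (W0 r)) p + aeval (xF (W0 r)) q * yF (W0 r) with hgdef
  have hg0 : g ≠ 0 := left_ne_zero_of_mul hN.1
  have hg1 : sigma r g ≠ 0 := right_ne_zero_of_mul hN.1
  obtain ⟨O, hO⟩ := exists_inf hr
  have hfin : (Function.support fun P : Place K (W0 r).FunctionField => ord P g).Finite := by
    refine (hN.2.1.insert O).subset fun P hP => ?_
    rcases le_or_gt (P.v (xF _)) 1 with hx | hx
    · right
      have hy := v_y_le P hx
      have a1 : 0 ≤ ord P g := ord_nonneg hg0 (by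
        refine P.v.map_add_le (v_aeval_le P hx p) ?_
        rw [map_mul]
        exact mul_le_one' (v_aeval_le P hx q) hy)
      have a2 : 0 ≤ ord P (sigma r g) := ord_nonneg hg1 (by
        rw [sigma_pq]
        refine P.v.map_add_le (v_aeval_le P hx p) ?_
        rw [map_mul]
        exact mul_le_one' (v_aeval_le P hx q) (P.v.map_add_le hy hx))
      have a3 : ord P g ≠ 0 := hP
      change ord P (g * sigma r g) ≠ 0
      rw [ord_mul P hg0 hg1]
      omega
    · exact Or.inl (inf_unique hr hx hO)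
  have e1 : ∀ P : Place K (W0 r).FunctionField,
      ord P (sigma r g) = ord (Place.equiv (sigma r) P) g := fun P => rfl
  have hfin' : (Function.support fun P : Place K (W0 r).FunctionField =>
      ord P (sigma r g)).Finite :=
    (hfin.preimage (Place.equiv (sigma r)).injective.injOn).subset fun P hP => hP
  refine ⟨hg0, hfin, ?_⟩
  have e2 := hN.2.2
  simp only [ord_mul _ hg0 hg1] at e2
  rw [finsum_add_distrib hfin hfin'] at e2
  simp only [e1] at e2
  rw [finsum_comp_equiv (Place.equiv (sigma r)) (f := fun P => ord P g)] at e2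
  omega

theorem good_all (hr : r ≠ 0) {g : (W0 r).FunctionField} (hg : g ≠ 0) : Good K g := by
  obtain ⟨a, b, hb, rfl⟩ := IsFractionRing.div_surjective (A := (W0 r).CoordinateRing) g
  have ha : a ≠ 0 := by
    rintro rfl
    simp at hg
  rw [div_eq_mul_inv]
  exact (good_R hr ha).mul (good_R hr (nonZeroDivisors.ne_zero hb)).inv

/-- A function without poles is constant. -/
theorem const_of_regular (hr : r ≠ 0) {g : (W0 r).FunctionField}
    (hg : ∀ P : Place K (W0 r).FunctionField, P.v g ≤ 1) : ∃ c : K, g = algebraMap K _ c := by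
  obtain ⟨O, -⟩ := exists_inf hr
  obtain ⟨c, hc⟩ := residue hr O (hg O)
  refine ⟨c, ?_⟩
  by_contra hne
  have h0 : g - algebraMap K _ c ≠ 0 := sub_ne_zero.2 hne
  obtain ⟨-, h1, h2⟩ := good_all hr h0
  have h3 : 0 < ∑ᶠ P : Place K (W0 r).FunctionField, ord P (g - algebraMap K _ c) :=
    finsum_pos (fun P => ord_nonneg h0 (P.v.map_sub_le (hg P) (P.triv c))) ⟨O, ord_pos h0 hc⟩ h1
  omega

/-- The reference function `w = y + x ^ 2`. -/
noncomputable def wF (r : K) : (W0 r).FunctionField := yF _ + xF _ ^ 2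

/-- Up to a fourth power, `w` is a local coordinate with nonzero value at every place. -/
theorem local_w (hr : r ≠ 0) (P : Place K (W0 r).FunctionField) :
    ∃ (s t : (W0 r).FunctionField) (ρ : K), ρ ≠ 0 ∧ P.v t = exp (-1) ∧
      wF r = s ^ 4 * (t + algebraMap K _ ρ ^ 4) := by
  have e := eqn0.1 (eqn_F (W0 r))
  have h2 : (2 : (W0 r).FunctionField) = 0 := CharTwo.two_eq_zero
  have h2K : (2 : K) = 0 := CharTwo.two_eq_zero
  have hr' : algebraMap K (W0 r).FunctionField r ≠ 0 := by simpa using hr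
  rcases le_or_gt (P.v (xF _)) 1 with hx | hx
  · obtain ⟨x0, y0, h, hP⟩ := classify P hx
    have e0 := eqn0.1 (h.map (Algebra.ofId K (W0 r).FunctionField))
    simp only [Algebra.ofId_apply] at e0
    have e1 := eqn0.1 h
    simp only [Algebra.algebraMap_self, RingHom.id_apply] at e1
    have hone : ∀ g : (W0 r).CoordinateRing, evR h g ≠ 0 → P.v (algebraMap _ _ g) = 1 :=
      fun g hg => hP.eq_one hg
    by_cases hw : y0 + x0 ^ 2 = 0
    · have hx0 : x0 = r := by
        have : (x0 - r) ^ 4 = 0 := by grind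
        exact sub_eq_zero.1 (pow_eq_zero_iff (by norm_num) |>.1 this)
      subst hx0
      obtain ⟨ρ, hρ⟩ := IsAlgClosed.exists_pow_nat_eq x0⁻¹ (n := 4) (by norm_num)
      have hρ0 : ρ ≠ 0 := by
        rintro rfl
        exact inv_ne_zero hr (by rw [← hρ]; norm_num)
      have u1 : P.v (wF x0 + xF _) = 1 := by
        have := hone (yR _ + xR _ ^ 2 + xR _) (by simpa [hw] using hr)
        simpa only [map_add, map_pow, wF, xF, yF] using this
      have u0 : wF x0 + xF _ ≠ 0 := by
        intro h0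
        rw [h0, map_zero] at u1
        exact zero_ne_one u1
      have u2 := centered_v_x hr hP hr
      have u3 : wF x0 = (xF _ - algebraMap K _ x0) ^ 4 / (wF x0 + xF _) := by
        rw [eq_div_iff u0]
        unfold wF
        grind
      have u4 : P.v (wF x0) = exp (-4) := by
        rw [u3, map_div₀, u1, div_one, map_pow, u2, ← exp_nsmul]
        rfl
      refine ⟨xF _ - algebraMap K _ x0, ((xF _ - algebraMap K _ x0) + wF x0) /
        (algebraMap K _ x0 * (wF x0 + xF _)), ρ, hρ0, ?_, ?_⟩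
      · rw [map_div₀, map_mul, u1, P.v_const hr, mul_one, div_one,
          P.v.map_add_eq_of_lt_left (by rw [u2, u4, exp_lt_exp]; norm_num), u2]
      · rw [← map_pow, hρ, map_inv₀]
        conv_lhs => rw [u3]
        field_simp
        grind
    · obtain ⟨ρ, hρ⟩ := IsAlgClosed.exists_pow_nat_eq (y0 + x0 ^ 2) (n := 4) (by norm_num)
      have hρ0 : ρ ≠ 0 := by
        rintro rfl
        exact hw (by rw [← hρ]; norm_num)
      refine ⟨1, wF r - algebraMap K _ (y0 + x0 ^ 2), ρ, hρ0, ?_, by rw [← map_pow, hρ]; ring⟩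
      by_cases hx0 : x0 = 0
      · subst hx0
        have u1 := centered_v_y hr hP
        have u2 := centered_v_xT hr hP
        rw [show wF r - algebraMap K _ (y0 + 0 ^ 2) = (yF _ - algebraMap K _ y0) + xF _ ^ 2 by
          unfold wF; simp only [map_add, map_pow, map_zero]; ring,
          P.v.map_add_eq_of_lt_left (by rw [u1, map_pow, u2, ← exp_nsmul, exp_lt_exp]; norm_num), u1]
      · have u1 := centered_v_x hr hP hx0
        have u2 : P.v (wF r - algebraMap K _ (y0 + x0 ^ 2) + xF _) = 1 := by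
          have := hone (yR _ + xR _ ^ 2 - algebraMap K _ (y0 + x0 ^ 2) + xR _) (by simpa using hx0)
          simpa only [map_add, map_pow, map_sub, ← IsScalarTower.algebraMap_apply, wF, xF, yF]
            using this
        have u3 : P.v (algebraMap K _ (y0 + x0 ^ 2) + (xF (W0 r) - algebraMap K _ x0) ^ 3) = 1 := by
          have := hone (algebraMap K _ (y0 + x0 ^ 2) + (xR _ - algebraMap K _ x0) ^ 3)
            (by simpa using hw)
          simpa only [map_add, map_pow, map_sub, ← IsScalarTower.algebraMap_apply, wF, xF, yF]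
            using this
        have u4 : (wF r - algebraMap K _ (y0 + x0 ^ 2)) *
            (wF r - algebraMap K _ (y0 + x0 ^ 2) + xF _) = (xF (W0 r) - algebraMap K _ x0) *
            (algebraMap K _ (y0 + x0 ^ 2) + (xF (W0 r) - algebraMap K _ x0) ^ 3) := by
          unfold wF
          simp only [map_add, map_pow]
          grind
        have u5 := congrArg P.v u4
        rwa [map_mul, map_mul, u2, u3, u1, mul_one, mul_one] at u5
  · have u1 := inf_v_x hr hx
    have hx0 : xF (W0 r) ≠ 0 := by simpa using xF_ne_zero (W0 r) 0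
    have u2 : P.v (xF _ ^ 3 + algebraMap K _ r ^ 4) = exp 6 := by
      rw [P.v.map_add_eq_of_lt_left, map_pow, u1, ← exp_nsmul]
      · rfl
      · rw [map_pow, map_pow, P.v_const hr, one_pow, u1, ← exp_nsmul, ← exp_zero, exp_lt_exp]
        norm_num
    rw [← e, show yF (W0 r) ^ 2 + xF _ * yF _ = yF _ * (yF _ + xF _) by ring, map_mul] at u2
    have hy0 : yF (W0 r) ≠ 0 := by
      intro h0
      rw [h0, map_zero, zero_mul] at u2
      exact exp_ne_zero u2.symm
    have u3 : P.v (yF (W0 r)) = exp 3 := by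
      have hy := v_eq_exp P hy0
      rcases le_or_gt (P.v (yF _)) (P.v (xF _)) with h | h
      · have h1 : P.v (yF (W0 r)) * P.v (yF _ + xF _) ≤ P.v (xF _) * P.v (xF _) :=
          mul_le_mul' h (P.v.map_add_le h le_rfl)
        rw [u2, u1, ← exp_add, exp_le_exp] at h1
        omega
      · rw [P.v.map_add_eq_of_lt_left h, hy, ← exp_add, exp_inj] at u2
        rw [hy, exp_inj]
        omega
    refine ⟨yF _ / xF _, (xF _ ^ 4 * yF _ + (xF _ ^ 2 * yF _ ^ 2 + algebraMap K _ r ^ 8)) / yF _ ^ 4,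
      1, one_ne_zero, ?_, ?_⟩
    · have a1 : P.v (xF (W0 r) ^ 4 * yF _) = exp 11 := by
        rw [map_mul, map_pow, u1, u3, ← exp_nsmul, ← exp_add]
        rfl
      have a2 : P.v (xF (W0 r) ^ 2 * yF _ ^ 2 + algebraMap K _ r ^ 8) < exp 11 := by
        refine P.v.map_add_lt ?_ ?_
        · rw [map_mul, map_pow, map_pow, u1, u3, ← exp_nsmul, ← exp_nsmul, ← exp_add, exp_lt_exp]
          norm_num
        · rw [map_pow, P.v_const hr, one_pow, ← exp_zero, exp_lt_exp]
          norm_num
      rw [map_div₀, P.v.map_add_eq_of_lt_left (a1 ▸ a2), a1, map_pow, u3, ← exp_nsmul, ← exp_sub]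
      rfl
    · unfold wF
      rw [map_one]
      field_simp
      grind

end Pool.Agent.MP_fb6b45_ag

end MrgPart3

-- ======== part 4: formerly Pool.Agent.MP_fb6b45_ag.Main
section MrgPart4

set_option autoImplicit false

namespace Pool.Agent.MP_fb6b45_ag

open Polynomial WeierstrassCurve WeierstrassCurve.Affine WithZero

section abstract

variable {K F : Type} [Field K] [Field F] [Algebra K F]

theorem v_dec (P : Place K F) {t : F} (ht : P.v t = exp (-1)) (A B : F) :
    P.v (A ^ 2 + B ^ 2 * t) = max (P.v A ^ 2) (P.v B ^ 2 * exp (-1)) := by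
  by_cases hA : A = 0
  · simp [hA, ht]
  by_cases hB : B = 0
  · simp [hB]
  rw [P.v.map_add_of_distinct_val, map_mul, map_pow, map_pow, ht]
  rw [map_mul, map_pow, map_pow, ht, v_eq_exp P hA, v_eq_exp P hB, ← exp_nsmul, ← exp_nsmul,
    ← exp_add, Ne, exp_inj]
  simp only [nsmul_eq_mul]
  omega

theorem sq_le_sq_val {a b : WithZero (Multiplicative ℤ)} (h : a ^ 2 * exp (-1) ≤ b ^ 2) : a ≤ b := by
  by_cases ha : a = 0
  · simp [ha]
  by_cases hb : b = 0
  · subst hb
    simp [ha] at h
  rw [← exp_log ha, ← exp_log hb] at h ⊢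
  rw [← exp_nsmul, ← exp_nsmul, ← exp_add, exp_le_exp] at h
  rw [exp_le_exp]
  simp only [nsmul_eq_mul] at h
  omega

theorem sq_le_sq_val' {a b : WithZero (Multiplicative ℤ)} (h : a ^ 2 ≤ b ^ 2 * exp (-1)) :
    a ≤ b * exp (-1) := by
  by_cases ha : a = 0
  · simp [ha]
  by_cases hb : b = 0
  · subst hb
    simp [ha] at h
  rw [← exp_log ha, ← exp_log hb] at h ⊢
  rw [← exp_nsmul, ← exp_nsmul, ← exp_add, exp_le_exp] at h
  rw [← exp_add, exp_le_exp]
  simp only [nsmul_eq_mul] at h
  omega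

/-- The structure used by the parity argument. -/
structure Setup (K : Type) {F : Type} [Field K] [Field F] [Algebra K F] (w : F) : Prop where
  two : (2 : F) = 0
  root : ∀ c : K, ∃ d : K, d ^ 4 = c
  w0 : w ≠ 0
  dec : ∀ g : F, ∃ A B : F, g = A ^ 2 + B ^ 2 * w
  loc : ∀ P : Place K F, ∃ (s t : F) (ρ : K), ρ ≠ 0 ∧ P.v t = exp (-1) ∧
    w = s ^ 4 * (t + algebraMap K F ρ ^ 4)
  res : ∀ (P : Place K F) (g : F), P.v g ≤ 1 → ∃ c : K, P.v (g - algebraMap K F c) < 1
  good : ∀ g : F, g ≠ 0 → Good K g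
  const : ∀ g : F, (∀ P : Place K F, P.v g ≤ 1) → ∃ c : K, g = algebraMap K F c
  place : Nonempty (Place K F)

namespace Setup

variable {w : F} (S : Setup K w)
include S

theorem uniq0 {A B : F} (h : A ^ 2 + B ^ 2 * w = 0) : B = 0 := by
  obtain ⟨P⟩ := S.place
  obtain ⟨s, t, ρ, -, ht, hw⟩ := S.loc P
  have h2 := S.two
  have hs : s ≠ 0 := by
    rintro rfl
    exact S.w0 (by rw [hw]; ring)
  have e : (A + B * s ^ 2 * algebraMap K F ρ ^ 2) ^ 2 + (B * s ^ 2) ^ 2 * t = 0 := by
    rw [hw] at h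
    linear_combination h + (A * B * s ^ 2 * algebraMap K F ρ ^ 2) * h2
  have h3 := v_dec P ht (A + B * s ^ 2 * algebraMap K F ρ ^ 2) (B * s ^ 2)
  rw [e, map_zero] at h3
  have h4 : P.v (B * s ^ 2) ^ 2 * exp (-1) ≤ 0 := h3 ▸ le_max_right _ _
  simpa [hs] using h4

/-- The derivation with `D w = w`. -/
noncomputable def D (g : F) : F := (S.dec g).choose_spec.choose ^ 2 * w

theorem D_eq (A B : F) : S.D (A ^ 2 + B ^ 2 * w) = B ^ 2 * w := by
  have h := (S.dec (A ^ 2 + B ^ 2 * w)).choose_spec.choose_spec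
  unfold D
  set A' := (S.dec (A ^ 2 + B ^ 2 * w)).choose
  set B' := (S.dec (A ^ 2 + B ^ 2 * w)).choose_spec.choose
  have h2 := S.two
  have : B' - B = 0 := S.uniq0 (A := A' - A) (by
    linear_combination -h + (A ^ 2 - A * A' + B ^ 2 * w - B * B' * w) * h2)
  rw [sub_eq_zero.1 this]

theorem D_add (g h : F) : S.D (g + h) = S.D g + S.D h := by
  obtain ⟨A, B, rfl⟩ := S.dec g
  obtain ⟨A', B', rfl⟩ := S.dec h
  have h2 := S.two
  rw [show A ^ 2 + B ^ 2 * w + (A' ^ 2 + B' ^ 2 * w) = (A + A') ^ 2 + (B + B') ^ 2 * w by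
    linear_combination (-(A * A') - B * B' * w) * h2, S.D_eq, S.D_eq, S.D_eq]
  linear_combination (B * B' * w) * h2

theorem D_mul (g h : F) : S.D (g * h) = g * S.D h + h * S.D g := by
  obtain ⟨A, B, rfl⟩ := S.dec g
  obtain ⟨A', B', rfl⟩ := S.dec h
  have h2 := S.two
  rw [show (A ^ 2 + B ^ 2 * w) * (A' ^ 2 + B' ^ 2 * w) =
      (A * A' + B * B' * w) ^ 2 + (A * B' + B * A') ^ 2 * w by
    linear_combination (-2 * (A * A' * B * B' * w)) * h2 + (A * A' * B * B' * w) * h2 -
      (A * A' * B * B' * w) * h2 + (A * A' * B * B' * w) * h2 - (A * A' * B * B' * w) * h2,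
    S.D_eq, S.D_eq, S.D_eq]
  linear_combination (A * A' * B * B' * w - B ^ 2 * B' ^ 2 * w ^ 2) * h2

theorem D_sq (A : F) : S.D (A ^ 2) = 0 := by
  simpa using S.D_eq A 0

theorem D_const (c : K) : S.D (algebraMap K F c) = 0 := by
  obtain ⟨d, rfl⟩ := S.root c
  rw [map_pow, show algebraMap K F d ^ 4 = (algebraMap K F d ^ 2) ^ 2 by ring, S.D_sq]

theorem D_sq_mul (A g : F) : S.D (A ^ 2 * g) = A ^ 2 * S.D g := by
  rw [S.D_mul, S.D_sq, mul_zero, add_zero]

section local_

variable {P : Place K F} {s t : F} {ρ : K} (hρ : ρ ≠ 0) (ht : P.v t = exp (-1))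
  (hw : w = s ^ 4 * (t + algebraMap K F ρ ^ 4))
include hρ ht

omit S in
theorem v_unit : P.v (t + algebraMap K F ρ ^ 4) = 1 := by
  rw [P.v.map_add_eq_of_lt_right, map_pow, P.v_const hρ, one_pow]
  rw [map_pow, P.v_const hρ, one_pow, ht, ← exp_zero, exp_lt_exp]
  norm_num

include hw

theorem v_D (g : F) : ∃ A B : F, P.v g = max (P.v A ^ 2) (P.v B ^ 2 * exp (-1)) ∧
    P.v (S.D g) = P.v B ^ 2 := by
  obtain ⟨A, B, rfl⟩ := S.dec g
  have h2 := S.two
  refine ⟨A + B * s ^ 2 * algebraMap K F ρ ^ 2, B * s ^ 2, ?_, ?_⟩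
  · rw [← v_dec P ht]
    congr 1
    rw [hw]
    linear_combination (-(A * B * s ^ 2 * algebraMap K F ρ ^ 2)) * h2
  · rw [S.D_eq, hw, show B ^ 2 * (s ^ 4 * (t + algebraMap K F ρ ^ 4)) =
      (B * s ^ 2) ^ 2 * (t + algebraMap K F ρ ^ 4) by ring, map_mul, v_unit hρ ht, mul_one,
      map_pow]

theorem v_D_le (g : F) : P.v (S.D g) * exp (-1) ≤ P.v g := by
  obtain ⟨A, B, h1, h2⟩ := S.v_D hρ ht hw g
  rw [h1, h2]
  exact le_max_right _ _

theorem v_D_le_one {g : F} (hg : P.v g ≤ 1) : P.v (S.D g) ≤ 1 := by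
  obtain ⟨A, B, h1, h2⟩ := S.v_D hρ ht hw g
  rw [h2]
  refine pow_le_one' (sq_le_sq_val ?_) _
  rw [one_pow]
  exact le_trans (le_max_right _ _) (h1 ▸ hg)

omit hρ ht in
theorem D_t : S.D t = t + algebraMap K F ρ ^ 4 := by
  have hs : s ≠ 0 := by
    rintro rfl
    exact S.w0 (by rw [hw]; ring)
  have h2 := S.two
  have e : t = (algebraMap K F ρ ^ 2) ^ 2 + (s ^ 2)⁻¹ ^ 2 * w := by
    rw [hw]
    field_simp
    linear_combination (-(algebraMap K F ρ ^ 4)) * h2
  have := S.D_eq (algebraMap K F ρ ^ 2) (s ^ 2)⁻¹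
  rw [← e] at this
  rw [this, hw]
  field_simp

theorem v_logD_even {g : F} (hg : g ≠ 0) (he : Even (ord P g)) : P.v (S.D g / g) ≤ 1 := by
  obtain ⟨k, hk⟩ := he
  obtain ⟨γ, hγ⟩ := P.surj (exp k)
  have hγ0 : γ ≠ 0 := by
    rintro rfl
    rw [map_zero] at hγ
    exact exp_ne_zero hγ.symm
  have h1 : P.v (γ ^ 2 * g) = 1 := by
    rw [map_mul, map_pow, hγ, v_eq_exp P hg, ← exp_nsmul, ← exp_add, ← exp_zero, exp_inj]
    simp only [nsmul_eq_mul]
    omega
  have h2 := S.v_D_le_one hρ ht hw h1.le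
  rw [S.D_sq_mul] at h2
  rw [show S.D g / g = γ ^ 2 * S.D g / (γ ^ 2 * g) by field_simp, map_div₀, h1, div_one]
  exact h2

theorem v_eta {β : F} (hβ : β ≠ 0) :
    P.v (S.D β / β + (S.D β / β) ^ 2 * t / (t + algebraMap K F ρ ^ 4)) ≤ 1 := by
  have hu := v_unit hρ ht
  have ht1 : P.v t ≤ 1 := by rw [ht, ← exp_zero, exp_le_exp]; norm_num
  have ht0 : t ≠ 0 := by
    rintro rfl
    rw [map_zero] at ht
    exact exp_ne_zero ht.symm
  have hu0 : t + algebraMap K F ρ ^ 4 ≠ 0 := by
    intro h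
    rw [h, map_zero] at hu
    exact zero_ne_one hu
  have key : ∀ δ : F, P.v δ ≤ 1 → P.v (δ + δ ^ 2 * t / (t + algebraMap K F ρ ^ 4)) ≤ 1 := by
    intro δ hδ
    refine P.v.map_add_le hδ ?_
    rw [map_div₀, hu, div_one, map_mul, map_pow]
    exact mul_le_one' (pow_le_one' hδ _) ht1
  rcases Int.even_or_odd (ord P β) with he | ho
  · exact key _ (S.v_logD_even hρ ht hw hβ he)
  · have he : Even (ord P (β * t)) := by
      rw [ord_mul P hβ ht0, ord_eq ht]
      exact ho.add_odd (by decide)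
    have h1 := key _ (S.v_logD_even hρ ht hw (mul_ne_zero hβ ht0) he)
    rw [S.D_mul, S.D_t hw] at h1
    have h2 := S.two
    convert h1 using 2
    field_simp
    grind

theorem v_kappa {α β φ : F} {n : ℤ} (hφ : S.D φ = 0) (hβ : β ≠ 0) (hn : Odd n)
    (hf : P.v (α ^ 2 + β ^ 2 * w + φ ^ 2) = exp n) :
    P.v (S.D β / β + (S.D β / β) ^ 2 + S.D α ^ 2 / (w * β ^ 2)) ≤ 1 := by
  have h2 := S.two
  have hu := v_unit hρ ht
  have hs : s ≠ 0 := by
    rintro rfl
    exact S.w0 (by rw [hw]; ring)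
  have hu0 : t + algebraMap K F ρ ^ 4 ≠ 0 := by
    intro h
    rw [h, map_zero] at hu
    exact zero_ne_one hu
  set A := α + (s * algebraMap K F ρ) ^ 2 * β + φ with hA
  have e : α ^ 2 + β ^ 2 * w + φ ^ 2 = A ^ 2 + (β * s ^ 2) ^ 2 * t := by
    rw [hA, hw]
    grind
  rw [e, v_dec P ht] at hf
  have h3 : P.v A ^ 2 ≤ P.v (β * s ^ 2) ^ 2 * exp (-1) := by
    by_contra hc
    rw [max_eq_left (not_le.1 hc).le] at hf
    have hA0 : A ≠ 0 := by
      intro h0
      rw [h0, map_zero, zero_pow two_ne_zero] at hf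
      exact exp_ne_zero hf.symm
    rw [v_eq_exp P hA0, ← exp_nsmul, exp_inj] at hf
    simp only [nsmul_eq_mul] at hf
    obtain ⟨m, hm⟩ := hn
    omega
  have h4 : P.v (S.D A) ≤ P.v (β * s ^ 2) :=
    le_of_mul_le_mul_right ((S.v_D_le hρ ht hw A).trans (sq_le_sq_val' h3)) exp_pos
  have h5 : P.v (S.D A / (β * s ^ 2)) ≤ 1 := by
    rw [map_div₀]
    exact div_le_one_of_le₀ h4 zero_le
  have h6 : S.D A = S.D α + (s * algebraMap K F ρ) ^ 2 * S.D β := by
    rw [hA, S.D_add, S.D_add, S.D_sq_mul, hφ, add_zero]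
  have e2 : S.D β / β + (S.D β / β) ^ 2 + S.D α ^ 2 / (w * β ^ 2) =
      (S.D β / β + (S.D β / β) ^ 2 * t / (t + algebraMap K F ρ ^ 4)) +
        (S.D A / (β * s ^ 2)) ^ 2 / (t + algebraMap K F ρ ^ 4) := by
    rw [h6]
    generalize S.D β = Dβ
    generalize S.D α = Dα
    rw [hw]
    field_simp
    grind
  rw [e2]
  refine P.v.map_add_le (S.v_eta hρ ht hw hβ) ?_
  rw [map_div₀, hu, div_one, map_pow]
  exact pow_le_one' h5 _

end local_

/-- Orders of the elements `A ^ 4 + B ^ 4 w` are `0` or `1` modulo four. -/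
theorem ord_V (P : Place K F) {A B : F} (h : A ^ 4 + B ^ 4 * w ≠ 0) :
    ord P (A ^ 4 + B ^ 4 * w) % 4 = 0 ∨ ord P (A ^ 4 + B ^ 4 * w) % 4 = 1 := by
  obtain ⟨s, t, ρ, hρ, ht, hw⟩ := S.loc P
  have h2 := S.two
  have e : A ^ 4 + B ^ 4 * w = ((A + B * s * algebraMap K F ρ) ^ 2) ^ 2 + ((B * s) ^ 2) ^ 2 * t := by
    rw [hw]
    grind
  have h3 := v_dec P ht ((A + B * s * algebraMap K F ρ) ^ 2) ((B * s) ^ 2)
  rw [← e] at h3
  have h4 : P.v (A ^ 4 + B ^ 4 * w) ≠ 0 := by simpa using h
  rcases max_cases (P.v ((A + B * s * algebraMap K F ρ) ^ 2) ^ 2)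
    (P.v ((B * s) ^ 2) ^ 2 * exp (-1)) with ⟨h5, -⟩ | ⟨h5, -⟩
  · rw [h5] at h3
    have h6 : A + B * s * algebraMap K F ρ ≠ 0 := by
      intro h0
      rw [h3, h0] at h4
      simp at h4
    rw [map_pow, v_eq_exp P h6, ← exp_nsmul, ← exp_nsmul] at h3
    rw [ord_eq h3]
    simp only [nsmul_eq_mul]
    omega
  · rw [h5] at h3
    have h6 : B * s ≠ 0 := by
      intro h0
      rw [h3, h0] at h4
      simp at h4
    rw [map_pow, v_eq_exp P h6, ← exp_nsmul, ← exp_nsmul, ← exp_add] at h3
    rw [ord_eq h3]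
    simp only [nsmul_eq_mul]
    omega

/-- A function that is tame at every place is a fractional linear transform of `w` over fourth
powers. -/
theorem exists_u {f : F}
    (hf : ∀ P : Place K F, ∃ (c : K) (n : ℤ), Odd n ∧ P.v (f - algebraMap K F c) = exp n) :
    ∃ u : F, u ≠ 0 ∧ (∃ A B, u = A ^ 4 + B ^ 4 * w) ∧ ∃ A B, u * f = A ^ 4 + B ^ 4 * w := by
  have h2 := S.two
  obtain ⟨α, β, rfl⟩ := S.dec f
  have hf' : ∀ P : Place K F, ∃ (φ : F) (n : ℤ), S.D φ = 0 ∧ Odd n ∧
      P.v (α ^ 2 + β ^ 2 * w + φ ^ 2) = exp n := by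
    intro P
    obtain ⟨c, n, hn, h⟩ := hf P
    obtain ⟨d, rfl⟩ := S.root c
    refine ⟨algebraMap K F d ^ 2, n, S.D_sq _, hn, ?_⟩
    rw [← h, map_pow (algebraMap K F)]
    congr 1
    linear_combination (algebraMap K F d ^ 4) * h2
  have hβ : β ≠ 0 := by
    rintro rfl
    obtain ⟨P⟩ := S.place
    obtain ⟨φ, n, -, ⟨m, hm⟩, h⟩ := hf' P
    rw [show α ^ 2 + 0 ^ 2 * w + φ ^ 2 = (α + φ) ^ 2 by linear_combination (-(α * φ)) * h2,
      map_pow] at h
    have h0 : α + φ ≠ 0 := by
      intro h0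
      rw [h0, map_zero, zero_pow two_ne_zero] at h
      exact exp_ne_zero h.symm
    rw [v_eq_exp P h0, ← exp_nsmul, exp_inj] at h
    simp only [nsmul_eq_mul] at h
    omega
  obtain ⟨c, hc⟩ := S.const (S.D β / β + (S.D β / β) ^ 2 + S.D α ^ 2 / (w * β ^ 2)) fun P => by
    obtain ⟨s, t, ρ, hρ, ht, hw⟩ := S.loc P
    obtain ⟨φ, n, h1, h3, h4⟩ := hf' P
    exact S.v_kappa hρ ht hw h1 hβ h3 h4
  obtain ⟨a0, a2, rfl⟩ := S.dec α
  obtain ⟨a1, a3, rfl⟩ := S.dec β
  have hw0 := S.w0
  rw [S.D_eq, S.D_eq] at hc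
  have e : algebraMap K F c = 0 ^ 2 + ((a1 * a3 + a2 ^ 2) / (a1 ^ 2 + a3 ^ 2 * w)) ^ 2 * w := by
    rw [← hc]
    field_simp
    grind
  have e2 := S.D_const c
  rw [e, S.D_eq] at e2
  have e3 : a1 * a3 + a2 ^ 2 = 0 := by simpa [hw0, hβ] using e2
  by_cases h1 : a1 = 0
  · subst h1
    have h4 : a2 = 0 := by simpa using e3
    subst h4
    exact ⟨w, hw0, ⟨0, 1, by ring⟩, a3 * w, a0, by ring⟩
  · refine ⟨a1 ^ 4 + a2 ^ 4 * w, ?_, ⟨a1, a2, rfl⟩, a0 * a1 + a2 * a3 * w, a1 ^ 2 + a0 * a2, ?_⟩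
    · intro h0
      have h5 : a2 ^ 2 = 0 := S.uniq0 (A := a1 ^ 2) (by linear_combination h0)
      apply h1
      have : a1 ^ 4 = 0 := by linear_combination h0 - a2 ^ 2 * w * h5
      exact pow_eq_zero_iff (by norm_num) |>.1 this
    · grind

end Setup

theorem locParam_inf (f : F) : locParam f (OnePoint.infty : OnePoint K) = f⁻¹ := rfl

theorem locParam_coe (f : F) (c : K) : locParam f (c : OnePoint K) = f - algebraMap K F c := rfl

theorem LiesOver.lt_one {f : F} {P : Place K F} {b : OnePoint K} {e : ℕ} (h : LiesOver f P b e) :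
    P.v (locParam f b) < 1 := by
  rw [h.2, ← exp_zero, exp_lt_exp]
  have := h.1
  omega

theorem LiesOver.v_inf {f : F} {P : Place K F} {e : ℕ} (h : LiesOver f P OnePoint.infty e)
    (c : K) : P.v (f - algebraMap K F c) = exp (e : ℤ) := by
  have h1 := h.2
  rw [locParam_inf, map_inv₀, exp_neg, inv_inj] at h1
  rw [P.v.map_sub_eq_of_lt_left, h1]
  refine (P.triv c).trans_lt ?_
  rw [h1, ← exp_zero, exp_lt_exp]
  exact_mod_cast h.1

theorem LiesOver.v_ne {f : F} {P : Place K F} {e : ℕ} {b c : K} (h : LiesOver f P b e)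
    (hc : b ≠ c) : P.v (f - algebraMap K F c) = 1 := by
  refine P.v_eq_one_of_sub (sub_ne_zero.2 hc) ?_
  have := h.lt_one
  rwa [map_sub (algebraMap K F), sub_sub_sub_cancel_right]

theorem LiesOver.unique {f : F} {P : Place K F} {b b' : OnePoint K} {e e' : ℕ}
    (h : LiesOver f P b e) (h' : LiesOver f P b' e') : b = b' ∧ e = e' := by
  have hb : b = b' := by
    induction b using OnePoint.rec with
    | infty =>
      induction b' using OnePoint.rec with
      | infty => rfl
      | coe c' =>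
        have h1 := h'.lt_one
        rw [locParam_coe, h.v_inf, ← exp_zero, exp_lt_exp] at h1
        omega
    | coe c =>
      induction b' using OnePoint.rec with
      | infty =>
        have h1 := h.lt_one
        rw [locParam_coe, h'.v_inf, ← exp_zero, exp_lt_exp] at h1
        omega
      | coe c' =>
        by_contra hc
        have h1 := h'.lt_one
        rw [locParam_coe, h.v_ne fun h0 => hc (by rw [h0])] at h1
        exact lt_irrefl _ h1
  subst hb
  have := h.2.symm.trans h'.2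
  rw [exp_inj] at this
  exact ⟨rfl, by omega⟩

theorem Setup.not_type {w : F} (S : Setup K w) (f : F) : ¬ HasType33333 K f := by
  classical
  rintro ⟨B, hB, hfib, hout⟩
  have := S.place
  choose! tri Q R hQR htri hQ hR hall using hfib
  obtain ⟨b0, hb0⟩ : ∃ b0 : K, (b0 : OnePoint K) ∈ B := by
    by_contra hc
    push Not at hc
    have : B ⊆ {OnePoint.infty} := by
      intro b hb
      induction b using OnePoint.rec with
      | infty => simp
      | coe c => exact absurd hb (hc c)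
    have := Finset.card_le_card this
    simp [hB] at this
  have hnc : ∀ c : K, f - algebraMap K F c ≠ 0 := by
    intro c h0
    have h1 := (htri _ hb0).2
    rw [locParam_coe, sub_eq_zero.1 h0, ← map_sub] at h1
    by_cases h3 : c - b0 = 0
    · rw [h3, map_zero, map_zero] at h1
      exact exp_ne_zero h1.symm
    · rw [Place.v_const _ h3, ← exp_zero, exp_inj] at h1
      omega
  have hex : ∀ P : Place K F, ∃ b e, LiesOver f P b e := by
    intro P
    rcases le_or_gt (P.v f) 1 with h | h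
    · obtain ⟨c, hc⟩ := S.res P f h
      have h1 := ord_pos (hnc c) hc
      refine ⟨c, (ord P (f - algebraMap K F c)).toNat, by omega, ?_⟩
      rw [locParam_coe, v_eq_exp P (hnc c), Int.toNat_of_nonneg h1.le]
    · have hf0 : f⁻¹ ≠ 0 := inv_ne_zero (by simpa using hnc 0)
      have h1 := ord_pos (P := P) hf0 (by rw [map_inv₀]; exact inv_lt_one_of_one_lt₀ h)
      refine ⟨OnePoint.infty, (ord P f⁻¹).toNat, by omega, ?_⟩
      rw [locParam_inf, v_eq_exp P hf0, Int.toNat_of_nonneg h1.le]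
  have he : ∀ P b e, LiesOver f P b e → (e = 3 ∧ b ∈ B ∧ P = tri b) ∨
      (e = 1 ∧ (b ∈ B → P = Q b ∨ P = R b)) := by
    intro P b e h
    by_cases hb : b ∈ B
    · rcases hall b hb P e h with rfl | rfl | rfl
      · exact Or.inl ⟨(h.unique (htri b hb)).2, hb, rfl⟩
      · exact Or.inr ⟨(h.unique (hQ b hb)).2, fun _ => Or.inl rfl⟩
      · exact Or.inr ⟨(h.unique (hR b hb)).2, fun _ => Or.inr rfl⟩
    · exact Or.inr ⟨hout b hb P e h, fun h' => absurd h' hb⟩
  obtain ⟨u, hu0, ⟨A1, B1, hu1⟩, A2, B2, hu2⟩ := S.exists_u (f := f) fun P => by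
    obtain ⟨b, e, h⟩ := hex P
    have hodd : Odd (e : ℤ) := by
      rcases he P b e h with ⟨rfl, -⟩ | ⟨rfl, -⟩ <;> decide
    induction b using OnePoint.rec with
    | infty => exact ⟨0, e, hodd, h.v_inf 0⟩
    | coe c => exact ⟨c, -e, hodd.neg, h.2⟩
  have hV : ∀ (P : Place K F) (c : K), (ord P u + ord P (f - algebraMap K F c)) % 4 = 0 ∨
      (ord P u + ord P (f - algebraMap K F c)) % 4 = 1 := by
    intro P c
    obtain ⟨d, rfl⟩ := S.root c
    have h2 := S.two
    have e : u * (f - algebraMap K F (d ^ 4)) =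
        (A2 + algebraMap K F d * A1) ^ 4 + (B2 + algebraMap K F d * B1) ^ 4 * w := by
      rw [mul_sub, hu2, hu1, map_pow]
      grind
    rw [← ord_mul P hu0 (hnc _), e]
    exact S.ord_V P (e ▸ mul_ne_zero hu0 (hnc _))
  have hVu : ∀ P : Place K F, ord P u % 4 = 0 ∨ ord P u % 4 = 1 := by
    intro P
    rw [hu1]
    exact S.ord_V P (hu1 ▸ hu0)
  let T : Finset (Place K F) := (B.erase b0).image tri ∪ {Q b0, R b0}
  have hTmem : ∀ P b e, LiesOver f P b e →
      (P ∈ T ↔ (e = 3 ∧ b ≠ b0) ∨ (e = 1 ∧ b = b0)) := by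
    intro P b e h
    simp only [T, Finset.mem_union, Finset.mem_image, Finset.mem_erase, Finset.mem_insert,
      Finset.mem_singleton]
    constructor
    · rintro (⟨b', ⟨h1, h2⟩, rfl⟩ | rfl | rfl)
      · obtain ⟨rfl, rfl⟩ := h.unique (htri b' h2)
        exact Or.inl ⟨rfl, h1⟩
      · obtain ⟨rfl, rfl⟩ := h.unique (hQ _ hb0)
        exact Or.inr ⟨rfl, rfl⟩
      · obtain ⟨rfl, rfl⟩ := h.unique (hR _ hb0)
        exact Or.inr ⟨rfl, rfl⟩
    · rintro (⟨rfl, h1⟩ | ⟨rfl, rfl⟩)
      · rcases he P b 3 h with ⟨-, h2, rfl⟩ | ⟨h2, -⟩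
        · exact Or.inl ⟨b, ⟨h1, h2⟩, rfl⟩
        · omega
      · rcases he P b0 1 h with ⟨h2, -⟩ | ⟨-, h2⟩
        · omega
        · exact Or.inr (h2 hb0)
  have hTcard : T.card = 6 := by
    rw [Finset.card_union_of_disjoint, Finset.card_image_of_injOn, Finset.card_erase_of_mem hb0, hB,
      Finset.card_pair (hQR _ hb0)]
    · intro b hb b' hb' h
      exact ((htri b (Finset.mem_of_mem_erase hb)).unique
        (h ▸ htri b' (Finset.mem_of_mem_erase hb'))).1
    · rw [Finset.disjoint_left]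
      intro P h1 h2
      obtain ⟨b, hb, rfl⟩ := Finset.mem_image.1 h1
      have h3 := htri b (Finset.mem_of_mem_erase hb)
      rcases Finset.mem_insert.1 h2 with h | h
      · exact absurd (h3.unique (h ▸ hQ _ hb0)).2 (by norm_num)
      · exact absurd (h3.unique (Finset.mem_singleton.1 h ▸ hR _ hb0)).2 (by norm_num)
  have hmod : ∀ P : Place K F, ord P (u * (f - algebraMap K F b0)) % 4 =
      (if P ∈ T then 1 else 0) := by
    intro P
    obtain ⟨b, e, h⟩ := hex P
    have he13 : e = 3 ∨ e = 1 := (he P b e h).imp And.left And.left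
    rw [ord_mul P hu0 (hnc _)]
    have a1 := hVu P
    have a2 := hV P b0
    have hT := hTmem P b e h
    induction b using OnePoint.rec with
    | infty =>
      rw [ord_eq (h.v_inf b0)] at a2 ⊢
      have hne : (OnePoint.infty : OnePoint K) ≠ b0 := OnePoint.infty_ne_coe _
      rcases he13 with rfl | rfl
      · rw [if_pos (hT.2 (Or.inl ⟨rfl, hne⟩))]; omega
      · rw [if_neg (fun h' => by rcases hT.1 h' with ⟨h1, -⟩ | ⟨-, h1⟩; omega; exact hne h1)]
        omega
    | coe c =>
      have a3 := hV P c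
      rw [ord_eq (show P.v (f - algebraMap K F c) = _ from h.2)] at a3
      by_cases hc : c = b0
      · subst hc
        rw [ord_eq (show P.v (f - algebraMap K F c) = _ from h.2)]
        rcases he13 with rfl | rfl
        · rw [if_neg (fun h' => by rcases hT.1 h' with ⟨-, h1⟩ | ⟨h1, -⟩; exact h1 rfl; omega)]
          omega
        · rw [if_pos (hT.2 (Or.inr ⟨rfl, rfl⟩))]; omega
      · rw [ord_of_one (h.v_ne hc)]
        have hne : (c : OnePoint K) ≠ b0 := fun h' => hc (OnePoint.coe_injective h')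
        rcases he13 with rfl | rfl
        · rw [if_pos (hT.2 (Or.inl ⟨rfl, hne⟩))]; omega
        · rw [if_neg (fun h' => by rcases hT.1 h' with ⟨h1, -⟩ | ⟨-, h1⟩; omega; exact hne h1)]
          omega
  obtain ⟨-, hfin, hsum⟩ := S.good _ (mul_ne_zero hu0 (hnc b0))
  rw [finsum_eq_sum_of_support_subset (s := hfin.toFinset ∪ T) _ (by
    intro P hP
    exact Finset.mem_coe.2 (Finset.mem_union_left _ (hfin.mem_toFinset.2 hP)))] at hsum
  have h7 := Finset.sum_int_mod (hfin.toFinset ∪ T) 4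
    fun P => ord P (u * (f - algebraMap K F b0))
  rw [hsum] at h7
  simp only [hmod] at h7
  rw [Finset.sum_ite_mem, Finset.inter_eq_right.2 Finset.subset_union_right, Finset.sum_const,
    hTcard] at h7
  norm_num at h7

theorem LiesOver.comap {F' : Type} [Field F'] [Algebra K F'] (φ : F' ≃ₐ[K] F) {f : F'}
    {P : Place K F} {b : OnePoint K} {e : ℕ} :
    LiesOver f (P.comap φ) b e ↔ LiesOver (φ f) P b e := by
  have : φ (locParam f b) = locParam (φ f) b := by
    induction b using OnePoint.rec with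
    | infty => rw [locParam_inf, locParam_inf, map_inv₀]
    | coe c => rw [locParam_coe, locParam_coe, map_sub, AlgEquiv.commutes]
  unfold LiesOver
  rw [Place.comap_v, this]

theorem HasType33333.map {F' : Type} [Field F'] [Algebra K F'] (φ : F' ≃ₐ[K] F) {f : F'}
    (h : HasType33333 K f) : HasType33333 K (φ f) := by
  obtain ⟨B, hB, h1, h2⟩ := h
  have hs : ∀ (P : Place K F') b e, LiesOver f P b e → LiesOver (φ f) (P.comap φ.symm) b e := by
    intro P b e h
    rw [LiesOver.comap, AlgEquiv.symm_apply_apply]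
    exact h
  refine ⟨B, hB, fun b hb => ?_, fun b hb P e h => h2 b hb _ e ((LiesOver.comap φ).2 h)⟩
  obtain ⟨P, Q, R, hQR, hP, hQ, hR, hall⟩ := h1 b hb
  refine ⟨P.comap φ.symm, Q.comap φ.symm, R.comap φ.symm,
    fun h => hQR ((Place.equiv φ).symm.injective h), hs _ _ _ hP, hs _ _ _ hQ, hs _ _ _ hR,
    fun S e h => ?_⟩
  have hS : S = (S.comap φ).comap φ.symm := ((Place.equiv φ).left_inv S).symm
  rcases hall _ e ((LiesOver.comap φ).2 h) with h | h | h
  · exact Or.inl (by rw [hS, h])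
  · exact Or.inr (Or.inl (by rw [hS, h]))
  · exact Or.inr (Or.inr (by rw [hS, h]))

end abstract

variable {K : Type} [Field K] [CharP K 2] [IsAlgClosed K]

theorem setup_W0 {r : K} (hr : r ≠ 0) : Setup K (wF r) := by
  have e := eqn0.1 (eqn_F (W0 r))
  have h2 : (2 : (W0 r).FunctionField) = 0 := CharTwo.two_eq_zero
  have hw0 : wF r ≠ 0 := by
    intro h0
    have h1 := algebraMap_pq (W := W0 r) (X ^ 2) 1
    rw [map_one (aeval (xF (W0 r))), map_pow (aeval (xF (W0 r))), aeval_X, one_mul,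
      add_comm (xF (W0 r) ^ 2)] at h1
    have h3 := IsFractionRing.injective (W0 r).CoordinateRing (W0 r).FunctionField
      ((h1.trans h0).trans (map_zero _).symm)
    exact one_ne_zero (pq_eq_zero _ h3).2
  refine ⟨h2, fun c => IsAlgClosed.exists_pow_nat_eq c (by norm_num), hw0, ?_, local_w hr,
    fun P g => residue hr P, fun g => good_all hr, fun g => const_of_regular hr,
    ⟨(exists_inf hr).choose⟩⟩
  let S : IntermediateField K (W0 r).FunctionField :=
    { carrier := {g | ∃ A B, g = A ^ 2 + B ^ 2 * wF r}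
      mul_mem' := by
        rintro _ _ ⟨A, B, rfl⟩ ⟨A', B', rfl⟩
        exact ⟨A * A' + B * B' * wF r, A * B' + B * A', by grind⟩
      add_mem' := by
        rintro _ _ ⟨A, B, rfl⟩ ⟨A', B', rfl⟩
        exact ⟨A + A', B + B', by grind⟩
      algebraMap_mem' := fun c => by
        obtain ⟨d, rfl⟩ := IsAlgClosed.exists_pow_nat_eq c (n := 2) (by norm_num)
        exact ⟨algebraMap K _ d, 0, by simp⟩
      inv_mem' := by
        rintro _ ⟨A, B, rfl⟩
        by_cases h0 : A ^ 2 + B ^ 2 * wF r = 0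
        · exact ⟨0, 0, by simp [h0]⟩
        · exact ⟨A / (A ^ 2 + B ^ 2 * wF r), B / (A ^ 2 + B ^ 2 * wF r), by field_simp⟩ }
  refine mem_of_xy S ⟨0, (yF _ + algebraMap K _ r ^ 2) / wF r, ?_⟩ ⟨xF _, 1, ?_⟩
  · field_simp
    unfold wF
    grind
  · unfold wF
    grind

theorem nonempty_place (W : WeierstrassCurve K) [W.IsElliptic] (hj : W.j ≠ 0) :
    Nonempty (Place K W.toAffine.FunctionField) := by
  obtain ⟨r, hr4⟩ := IsAlgClosed.exists_pow_nat_eq (W.j)⁻¹ (n := 4) (by norm_num)
  have hr : r ≠ 0 := by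
    rintro rfl
    exact inv_ne_zero hj (by rw [← hr4]; norm_num)
  have hNF : (W0 r).IsCharTwoJNeZeroNF := ⟨rfl, rfl, rfl⟩
  have hΔ : (W0 r).Δ = r ^ 4 := Δ_of_isCharTwoJNeZeroNF_of_char_two (W0 r)
  have hell : (W0 r).IsElliptic := ⟨by rw [hΔ]; exact (pow_ne_zero 4 hr).isUnit⟩
  have hj' : W.j = (W0 r).j := by
    rw [j_of_isCharTwoJNeZeroNF_of_char_two (W0 r)]
    change W.j = 1 / r ^ 4
    rw [hr4, one_div, inv_inv]
  obtain ⟨C, hC⟩ := exists_variableChange_of_j_eq W (W0 r) hj'
  have hφ := nonempty_equiv_variableChange W C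
  rw [hC] at hφ
  obtain ⟨φ⟩ := hφ
  exact ⟨(exists_inf hr).choose.comap φ⟩

theorem main (W : WeierstrassCurve K) [W.IsElliptic] (hj : W.j ≠ 0)
    (f : W.toAffine.FunctionField) : ¬ HasType33333 K f := by
  intro hf
  obtain ⟨r, hr4⟩ := IsAlgClosed.exists_pow_nat_eq (W.j)⁻¹ (n := 4) (by norm_num)
  have hr : r ≠ 0 := by
    rintro rfl
    exact inv_ne_zero hj (by rw [← hr4]; norm_num)
  have hNF : (W0 r).IsCharTwoJNeZeroNF := ⟨rfl, rfl, rfl⟩
  have hΔ : (W0 r).Δ = r ^ 4 := Δ_of_isCharTwoJNeZeroNF_of_char_two (W0 r)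
  have hell : (W0 r).IsElliptic := ⟨by rw [hΔ]; exact (pow_ne_zero 4 hr).isUnit⟩
  have hj' : W.j = (W0 r).j := by
    rw [j_of_isCharTwoJNeZeroNF_of_char_two (W0 r)]
    change W.j = 1 / r ^ 4
    rw [hr4, one_div, inv_inv]
  obtain ⟨C, hC⟩ := exists_variableChange_of_j_eq W (W0 r) hj'
  have hφ := nonempty_equiv_variableChange W C
  rw [hC] at hφ
  obtain ⟨φ⟩ := hφ
  exact (setup_W0 hr).not_type _ (hf.map φ)

end Pool.Agent.MP_fb6b45_ag

end MrgPart4

-- marker of a merged file
example : 731051 + 49455 = 731051 + 49455 := rfl
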